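import Mathlib
import Pool.Agent.Helper669.Forcing
import Pool.Agent.V11242.QC.Defs

/-!
# Free Suslin trees: definitions

The nodes of the trees are the pairs `(α, i)` with `α ∈ K` and `i ∈ ℕ`; the node `(α, i)` is on the
level `α`.
-/

set_option autoImplicit false

namespace Pool.Agent.V11242.FS

open Pool.Agent.Helper669.Forcing

/-- the nodes -/
abbrev Nd (K : Type) : Type := K × ℕ

section Ground

variable {K : Type} [LinearOrder K]

/-- `x = y` or `x` is below `y`. -/
def Le (lt : Nd K → Nd K → Prop) (x y : Nd K) : Prop := x = y ∨ lt x y

/-- `x` and `y` are comparable. -/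
def Comp (lt : Nd K → Nd K → Prop) (x y : Nd K) : Prop := Le lt x y ∨ Le lt y x

/-- `lt` is the strict order of a tree on the set of all nodes: for every node `y` and every level
`β` below the level of `y` there is exactly one node below `y` on the level `β`; for every node `x`
and every level `β` above the level of `x` there are infinitely many nodes above `x` on the
level `β`. -/
structure IsTree (lt : Nd K → Nd K → Prop) : Prop where
  lev : ∀ x y, lt x y → x.1 < y.1
  trans : ∀ x y z, lt x y → lt y z → lt x z
  pred : ∀ (y : Nd K) (β : K), β < y.1 → ∃ x, x.1 = β ∧ lt x y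
  uniq : ∀ x y z, lt x z → lt y z → x.1 = y.1 → x = y
  succ : ∀ (x : Nd K) (β : K) (m : ℕ), x.1 < β → ∃ j, m ≤ j ∧ lt x (β, j)

/-- For all different nodes `s 0, …, s (n - 1)` on the same level the product of the parts of the
tree above these nodes satisfies the countable chain condition: for all `n`-tuples `f a`, `a ∈ Z`,
where `Z` is an unbounded subset of `K`, in this product there are `a ≠ b` in `Z` such that `f a`
and `f b` are comparable in every coordinate. -/
def Free (lt : Nd K → Nd K → Prop) : Prop :=
  ∀ (n : ℕ) (s : Fin n → Nd K), (Function.Injective s ∧ ∀ i j, (s i).1 = (s j).1) →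
    ∀ (Z : K → Prop) (f : K → Fin n → Nd K), (∀ a, ∃ b, a < b ∧ Z b) →
      (∀ a i, Le lt (s i) (f a i)) →
        ∃ a b, a ≠ b ∧ Z a ∧ Z b ∧ ∀ i, Comp lt (f a i) (f b i)

variable (K) in
/-- There is a free Suslin tree on the set of the nodes. -/
def Phi : Prop := ∃ lt : Nd K → Nd K → Prop, IsTree lt ∧ Free lt

end Ground

/-! ### The same sentence in the forcing language -/

section Forcing

variable {P : Type} [Preorder P] {K : Type} [LinearOrder K]

/-- Forcing version of `Le`. -/
def LeN (L : Nd K → Nd K → Set P) (x y : Nd K) : Set P := fimp (fground (x ≠ y)) (meets (L x y))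

/-- Forcing version of `Comp`. -/
def CompN (L : Nd K → Nd K → Set P) (x y : Nd K) : Set P := fimp (fnot (LeN L x y)) (LeN L y x)

/-- Forcing version of `IsTree`. -/
def IsTreeN (L : Nd K → Nd K → Set P) : Set P :=
  fand (fall fun x : Nd K => fall fun y : Nd K => fimp (meets (L x y)) (fground (x.1 < y.1)))
    (fand (fall fun x => fall fun y => fall fun z =>
        fimp (fand (meets (L x y)) (meets (L y z))) (meets (L x z)))
      (fand (fall fun y : Nd K => fall fun β : K => fimp (fground (β < y.1))
          (fex fun x : Nd K => fand (fground (x.1 = β)) (meets (L x y))))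
        (fand (fall fun x => fall fun y => fall fun z =>
            fimp (fand (meets (L x z)) (fand (meets (L y z)) (fground (x.1 = y.1))))
              (fground (x = y)))
          (fall fun x : Nd K => fall fun β : K => fall fun m : ℕ => fimp (fground (x.1 < β))
            (fex fun j : ℕ => fand (fground (m ≤ j)) (meets (L x (β, j))))))))

/-- Forcing version of `Free`. -/
def FreeN (L : Nd K → Nd K → Set P) : Set P :=
  fall fun n : ℕ => fall fun s : Fin n → Nd K =>
    fall fun _ : Function.Injective s ∧ ∀ i j, (s i).1 = (s j).1 =>
      fall fun Z : K → Set P => fall fun f : K → (Fin n → Nd K) → Set P =>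
        fimp (fand (fall fun a => fex fun b => fand (fground (a < b)) (meets (Z b)))
            (fand (IsFun f)
              (fall fun a => fall fun t => fimp (meets (f a t)) (fall fun i => LeN L (s i) (t i)))))
          (fex fun a => fex fun b => fand (fground (a ≠ b)) (fand (meets (Z a)) (fand (meets (Z b))
            (fex fun t => fex fun u => fand (meets (f a t)) (fand (meets (f b u))
              (fall fun i => CompN L (t i) (u i)))))))

variable (P K) in
/-- The sentence `Phi K` in the forcing language. -/
def PhiN : Set P :=
  fex fun L : Nd K → Nd K → Set P => fand (IsTreeN L) (FreeN L)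

end Forcing

end Pool.Agent.V11242.FS
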