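import Mathlib
import Pool.Agent.V11242.FS.Defs

/-!
# Finite trees: the conditions and their amalgamation
-/

set_option autoImplicit false
set_option linter.unusedSectionVars false

namespace Pool.Agent.V11242.FS

open Set Pool.Agent.Helper669.Forcing

variable {K : Type} [LinearOrder K]

variable (K) in
/-- The conditions: finite trees. -/
structure Cond where
  /-- the nodes -/
  D : Finset (Nd K)
  /-- the order -/
  r : Nd K → Nd K → Prop
  mem : ∀ x y, r x y → x ∈ D ∧ y ∈ D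
  lev : ∀ x y, r x y → x.1 < y.1
  trans : ∀ x y z, r x y → r y z → r x z
  lin : ∀ x y z, r x z → r y z → x = y ∨ r x y ∨ r y x

namespace Cond

/-- `x = y` or `x` is below `y` -/
def le (p : Cond K) (x y : Nd K) : Prop := x = y ∨ p.r x y

theorem le_trans {p : Cond K} {x y z : Nd K} (h1 : p.le x y) (h2 : p.le y z) : p.le x z := by
  rcases h1 with rfl | h1
  · exact h2
  · rcases h2 with rfl | h2
    · exact Or.inr h1
    · exact Or.inr (p.trans _ _ _ h1 h2)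

theorem lin' {p : Cond K} {x y z : Nd K} (h1 : p.le x z) (h2 : p.le y z) :
    x = y ∨ p.r x y ∨ p.r y x := by
  rcases h1 with rfl | h1
  · rcases h2 with rfl | h2
    · exact Or.inl rfl
    · exact Or.inr (Or.inr h2)
  · rcases h2 with rfl | h2
    · exact Or.inr (Or.inl h1)
    · exact p.lin _ _ _ h1 h2

theorem le_lev {p : Cond K} {x y : Nd K} (h : p.le x y) : x.1 ≤ y.1 := by
  rcases h with rfl | h
  · exact le_rfl
  · exact (p.lev _ _ h).le

/-- comparison by the level -/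
theorem lt_of_lev {p : Cond K} {x y z : Nd K} (h1 : p.le x z) (h2 : p.le y z) (h : x.1 < y.1) :
    p.r x y := by
  rcases lin' h1 h2 with h3 | h3 | h3
  · rw [h3] at h
    exact absurd h (lt_irrefl _)
  · exact h3
  · exact absurd h (not_lt.2 (p.lev _ _ h3).le)

theorem mem_right {p : Cond K} {x y : Nd K} (h : p.le x y) (hx : x ∈ p.D) : y ∈ p.D := by
  rcases h with rfl | h
  · exact hx
  · exact (p.mem _ _ h).2

theorem mem_left {p : Cond K} {x y : Nd K} (h : p.le x y) (hx : y ∈ p.D) : x ∈ p.D := by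
  rcases h with rfl | h
  · exact hx
  · exact (p.mem _ _ h).1

instance : Preorder (Cond K) where
  le q p := p.D ⊆ q.D ∧ ∀ x ∈ p.D, ∀ y ∈ p.D, (q.r x y ↔ p.r x y)
  le_refl p := ⟨Finset.Subset.refl _, fun _ _ _ _ => Iff.rfl⟩
  le_trans p q s h1 h2 := ⟨h2.1.trans h1.1, fun x hx y hy =>
    (h1.2 x (h2.1 hx) y (h2.1 hy)).trans (h2.2 x hx y hy)⟩

theorem le_def {p q : Cond K} : q ≤ p ↔ p.D ⊆ q.D ∧ ∀ x ∈ p.D, ∀ y ∈ p.D, (q.r x y ↔ p.r x y) :=
  Iff.rfl

theorem r_of_le {p q : Cond K} (h : q ≤ p) {x y : Nd K} (hxy : p.r x y) : q.r x y :=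
  (h.2 x (p.mem _ _ hxy).1 y (p.mem _ _ hxy).2).2 hxy

/-- the empty condition -/
def bot : Cond K where
  D := ∅
  r _ _ := False
  mem _ _ h := h.elim
  lev _ _ h := h.elim
  trans _ _ _ h := h.elim
  lin _ _ _ h := h.elim

instance : Nonempty (Cond K) := ⟨bot⟩

/-- add a node with the given set of predecessors `{z | z ≤ x}` (or none) -/
theorem exists_add (p : Cond K) (y : Nd K) (hy : y ∉ p.D) (x : Option (Nd K))
    (hx : ∀ z ∈ x, z ∈ p.D ∧ z.1 < y.1) :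
    ∃ q ≤ p, y ∈ q.D ∧ ∀ z ∈ x, q.r z y := by
  classical
  refine ⟨⟨insert y p.D, fun u v => p.r u v ∨ (v = y ∧ ∃ z ∈ x, p.le u z), ?_, ?_, ?_, ?_⟩,
    ⟨Finset.subset_insert _ _, ?_⟩, Finset.mem_insert_self _ _, fun z hz => ?_⟩
  · rintro u v (h | ⟨rfl, z, hz, h⟩)
    · exact ⟨Finset.mem_insert_of_mem (p.mem _ _ h).1, Finset.mem_insert_of_mem (p.mem _ _ h).2⟩
    · exact ⟨Finset.mem_insert_of_mem (mem_left h (hx z hz).1), Finset.mem_insert_self _ _⟩
  · rintro u v (h | ⟨rfl, z, hz, h⟩)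
    · exact p.lev _ _ h
    · exact (le_lev h).trans_lt (hx z hz).2
  · rintro u v w (h | ⟨rfl, z, hz, h⟩) (h' | ⟨rfl, z', hz', h'⟩)
    · exact Or.inl (p.trans _ _ _ h h')
    · exact Or.inr ⟨rfl, z', hz', le_trans (Or.inr h) h'⟩
    · exact absurd (p.mem _ _ h').1 hy
    · exact absurd (mem_left h' (hx z' hz').1) hy
  · rintro u v w (h | ⟨rfl, z, hz, h⟩) (h' | ⟨h'', z', hz', h'⟩)
    · rcases p.lin _ _ _ h h' with h1 | h1 | h1
      · exact Or.inl h1
      · exact Or.inr (Or.inl (Or.inl h1))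
      · exact Or.inr (Or.inr (Or.inl h1))
    · rw [h''] at h
      exact absurd (p.mem _ _ h).2 hy
    · exact absurd (p.mem _ _ h').2 hy
    · have h1 : z = z' := Option.some.inj ((Option.mem_def.1 hz).symm.trans (Option.mem_def.1 hz'))
      subst h1
      rcases lin' h h' with h1 | h1 | h1
      · exact Or.inl h1
      · exact Or.inr (Or.inl (Or.inl h1))
      · exact Or.inr (Or.inr (Or.inl h1))
  · intro u _ v hv
    constructor
    · rintro (h | ⟨rfl, -⟩)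
      · exact h
      · exact absurd hv hy
    · exact Or.inl
  · exact Or.inr ⟨rfl, z, hz, Or.inl rfl⟩

theorem exists_mem (p : Cond K) (y : Nd K) : ∃ q ≤ p, y ∈ q.D := by
  by_cases hy : y ∈ p.D
  · exact ⟨p, le_rfl, hy⟩
  · obtain ⟨q, h1, h2, -⟩ := exists_add p y hy none (by simp)
    exact ⟨q, h1, h2⟩

theorem exists_mem_finset (p : Cond K) (F : Finset (Nd K)) : ∃ q ≤ p, F ⊆ q.D := by
  classical
  induction F using Finset.induction_on with
  | empty => exact ⟨p, le_rfl, Finset.empty_subset _⟩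
  | insert a F ha ih =>
    obtain ⟨q, hq, hF⟩ := ih
    obtain ⟨q', hq', ha'⟩ := exists_mem q a
    exact ⟨q', hq'.trans hq, Finset.insert_subset ha' (hF.trans hq'.1)⟩

/-- a new node on a level -/
theorem exists_fresh (D : Finset (Nd K)) (β : K) (m : ℕ) : ∃ j, m ≤ j ∧ ((β, j) : Nd K) ∉ D := by
  by_contra hcon
  push Not at hcon
  have h1 : (Set.range fun k : ℕ => ((β, m + k) : Nd K)).Infinite := by
    refine Set.infinite_range_of_injective fun k l h => ?_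
    have h2 := congrArg Prod.snd h
    simp only at h2
    omega
  refine h1 (D.finite_toSet.subset ?_)
  rintro _ ⟨k, rfl⟩
  exact hcon _ (Nat.le_add_right _ _)

theorem exists_succ_node (p : Cond K) (x : Nd K) (β : K) (m : ℕ) (h : x.1 < β) :
    ∃ q ≤ p, ∃ j, m ≤ j ∧ q.r x (β, j) := by
  obtain ⟨p', hp', hx⟩ := exists_mem p x
  obtain ⟨j, hj, hj'⟩ := exists_fresh p'.D β m
  obtain ⟨q, h1, h2, h3⟩ := exists_add p' (β, j) hj' (some x) (by
    intro z hz
    rw [Option.mem_def] at hz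
    rw [← Option.some.inj hz]
    exact ⟨hx, h⟩)
  exact ⟨q, h1.trans hp', j, hj, h3 x rfl⟩

/-- insert a node below a given node -/
theorem exists_insert (p : Cond K) (y : Nd K) (hy : y ∈ p.D) (x : Nd K) (hx : x ∉ p.D)
    (hxy : x.1 < y.1) (hno : ∀ z, p.r z y → z.1 ≠ x.1) : ∃ q ≤ p, q.r x y := by
  classical
  -- the nodes above `x`
  let Up : Nd K → Prop := fun w => ∃ v, x.1 < v.1 ∧ p.le v y ∧ p.le v w
  have hUpD : ∀ w, Up w → w ∈ p.D := fun w ⟨v, _, h2, h3⟩ => mem_right h3 (mem_left h2 hy)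
  have hUplev : ∀ w, Up w → x.1 < w.1 := fun w ⟨v, h1, _, h3⟩ => h1.trans_le (le_lev h3)
  let Dn : Nd K → Prop := fun z => p.r z y ∧ z.1 < x.1
  have hDnD : ∀ z, Dn z → z ∈ p.D := fun z h => (p.mem _ _ h.1).1
  -- a node below `y` on a level above that of `x` is in `Up`
  have hUpy : Up y := ⟨y, hxy, Or.inl rfl, Or.inl rfl⟩
  -- nodes below a node in `Up`
  have hbelow : ∀ z w, Up w → p.r z w → Up z ∨ Dn z := by
    rintro z w ⟨v, h1, h2, h3⟩ hzw
    rcases lin' (Or.inr hzw) h3 with h4 | h4 | h4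
    · left
      exact ⟨v, h1, h2, Or.inl h4.symm⟩
    · have h5 : p.r z y := by
        rcases h2 with h2 | h2
        · rw [← h2]
          exact h4
        · exact p.trans _ _ _ h4 h2
      rcases lt_trichotomy z.1 x.1 with h6 | h6 | h6
      · exact Or.inr ⟨h5, h6⟩
      · exact absurd h6 (hno z h5)
      · exact Or.inl ⟨z, h6, Or.inr h5, Or.inl rfl⟩
    · exact Or.inl ⟨v, h1, h2, Or.inr h4⟩
  have hDnUp : ∀ z w, Dn z → Up w → p.r z w := by
    rintro z w ⟨h1, h2⟩ ⟨v, h3, h4, h5⟩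
    have h6 : p.r z v := lt_of_lev (Or.inr h1) h4 (h2.trans h3)
    rcases h5 with h5 | h5
    · rw [← h5]
      exact h6
    · exact p.trans _ _ _ h6 h5
  refine ⟨⟨insert x p.D, fun u v => p.r u v ∨ (u = x ∧ Up v) ∨ (Dn u ∧ v = x), ?_, ?_, ?_, ?_⟩,
    ⟨Finset.subset_insert _ _, ?_⟩, Or.inr (Or.inl ⟨rfl, hUpy⟩)⟩
  · rintro u v (h | ⟨rfl, h⟩ | ⟨h, rfl⟩)
    · exact ⟨Finset.mem_insert_of_mem (p.mem _ _ h).1, Finset.mem_insert_of_mem (p.mem _ _ h).2⟩
    · exact ⟨Finset.mem_insert_self _ _, Finset.mem_insert_of_mem (hUpD _ h)⟩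
    · exact ⟨Finset.mem_insert_of_mem (hDnD _ h), Finset.mem_insert_self _ _⟩
  · rintro u v (h | ⟨rfl, h⟩ | ⟨h, rfl⟩)
    · exact p.lev _ _ h
    · exact hUplev _ h
    · exact h.2
  · rintro u v w (h | ⟨rfl, h⟩ | ⟨h, rfl⟩) (h' | ⟨h'', h'⟩ | ⟨h', h''⟩)
    · exact Or.inl (p.trans _ _ _ h h')
    · rw [h''] at h
      exact absurd (p.mem _ _ h).2 hx
    · exact Or.inr (Or.inr ⟨⟨p.trans _ _ _ h h'.1, (p.lev _ _ h).trans h'.2⟩, h''⟩)
    · obtain ⟨v', h1, h2, h3⟩ := h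
      exact Or.inr (Or.inl ⟨rfl, v', h1, h2, le_trans h3 (Or.inr h')⟩)
    · exact Or.inr (Or.inl ⟨rfl, h'⟩)
    · exact absurd ((hUplev _ h).trans h'.2) (lt_irrefl _)
    · exact absurd (p.mem _ _ h').1 hx
    · exact Or.inl (hDnUp _ _ h h')
    · exact absurd (h'.2) (lt_irrefl _)
  · rintro u v w (h | ⟨rfl, h⟩ | ⟨h, rfl⟩) (h' | ⟨h'', h'⟩ | ⟨h', h''⟩)
    · rcases p.lin _ _ _ h h' with h1 | h1 | h1
      · exact Or.inl h1
      · exact Or.inr (Or.inl (Or.inl h1))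
      · exact Or.inr (Or.inr (Or.inl h1))
    · rw [h'']
      rcases hbelow _ _ h' h with h1 | h1
      · exact Or.inr (Or.inr (Or.inr (Or.inl ⟨rfl, h1⟩)))
      · exact Or.inr (Or.inl (Or.inr (Or.inr ⟨h1, rfl⟩)))
    · rw [h''] at h
      exact absurd (p.mem _ _ h).2 hx
    · rcases hbelow _ _ h h' with h1 | h1
      · exact Or.inr (Or.inl (Or.inr (Or.inl ⟨rfl, h1⟩)))
      · exact Or.inr (Or.inr (Or.inr (Or.inr ⟨h1, rfl⟩)))
    · exact Or.inl h''.symm
    · rw [h''] at h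
      exact absurd (hUplev _ h) (lt_irrefl _)
    · exact absurd (p.mem _ _ h').2 hx
    · exact absurd (hUplev _ h') (lt_irrefl _)
    · rcases p.lin _ _ _ h.1 h'.1 with h1 | h1 | h1
      · exact Or.inl h1
      · exact Or.inr (Or.inl (Or.inl h1))
      · exact Or.inr (Or.inr (Or.inl h1))
  · intro u hu v hv
    constructor
    · rintro (h | ⟨rfl, h⟩ | ⟨h, rfl⟩)
      · exact h
      · exact absurd hu hx
      · exact absurd hv hx
    · exact Or.inl

theorem exists_pred_node (p : Cond K) (y : Nd K) (β : K) (h : β < y.1) :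
    ∃ q ≤ p, ∃ x : Nd K, x.1 = β ∧ q.r x y := by
  obtain ⟨p', hp', hy⟩ := exists_mem p y
  by_cases hex : ∃ z, p'.r z y ∧ z.1 = β
  · obtain ⟨z, hz, hz'⟩ := hex
    exact ⟨p', hp', z, hz', hz⟩
  · push Not at hex
    obtain ⟨j, -, hj⟩ := exists_fresh p'.D β 0
    obtain ⟨q, h1, h2⟩ := exists_insert p' y hy (β, j) hj h hex
    exact ⟨q, h1.trans hp', (β, j), rfl, h2⟩

/-- The amalgamation. -/
theorem amalgamation (A B : Cond K) (Λ : Finset K) {n : ℕ} (s ta tb : Fin n → Nd K)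
    (hta : ∀ i, ta i ∈ A.D) (htb : ∀ i, tb i ∈ B.D)
    (hR : ∀ x : Nd K, x.1 ∈ Λ → (x ∈ A.D ↔ x ∈ B.D))
    (hRr : ∀ x y : Nd K, x.1 ∈ Λ → y.1 ∈ Λ → (A.r x y ↔ B.r x y))
    (hlevA : ∀ x ∈ A.D, x.1 ∉ Λ → ∀ l ∈ Λ, l < x.1)
    (hlevB : ∀ y ∈ B.D, y.1 ∉ Λ → ∀ x ∈ A.D, x.1 < y.1)
    (hroot : ∀ i, ∀ x : Nd K, x.1 ∈ Λ → (A.le x (ta i) ↔ B.le x (tb i)))
    (hs : Function.Injective s) (hs' : ∀ i j, (s i).1 = (s j).1) (hsΛ : ∀ i, (s i).1 ∈ Λ)
    (hst : ∀ i, B.le (s i) (tb i)) :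
    ∃ q : Cond K, q ≤ A ∧ q ≤ B ∧ ∀ i, q.le (ta i) (tb i) ∨ q.le (tb i) (ta i) := by
  classical
  have hsA : ∀ i, s i ∈ A.D := fun i => (hR _ (hsΛ i)).2 (mem_left (hst i) (htb i))
  -- common nodes
  have hcom : ∀ x, x ∈ A.D → x ∈ B.D → x.1 ∈ Λ := by
    intro x hA hB
    by_contra h
    exact lt_irrefl _ (hlevB x hB h x hA)
  let Link : Fin n → Nd K → Prop := fun i y => ∃ v, v.1 ∉ Λ ∧ v ∈ B.D ∧ B.le v (tb i) ∧ B.le v y
  have hLinkB : ∀ i y, Link i y → y ∈ B.D := fun i y ⟨v, _, h2, _, h4⟩ => mem_right h4 h2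
  have hLinkΛ : ∀ i y, Link i y → y.1 ∉ Λ := by
    rintro i y ⟨v, h1, h2, h3, h4⟩ hy
    have h5 : y ∈ A.D := (hR _ hy).2 (mem_right h4 h2)
    exact absurd (hlevB v h2 h1 y h5) (not_lt.2 (le_lev h4))
  have hLinkA : ∀ i y, Link i y → y ∉ A.D := fun i y h hA =>
    hLinkΛ i y h (hcom y hA (hLinkB i y h))
  have hLink1 : ∀ i y, Link i y → ∀ x, x.1 ∈ Λ → x ∈ A.D → B.le x y → A.le x (ta i) := by
    rintro i y ⟨v, h1, h2, h3, h4⟩ x hx hxA hxy
    have h5 : B.r x v := lt_of_lev hxy h4 (hlevB v h2 h1 x hxA)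
    exact (hroot i x hx).2 (le_trans (Or.inr h5) h3)
  have hLink2 : ∀ i j y, Link i y → Link j y → i = j := by
    have key : ∀ i j y v w, v.1 ∉ Λ → v ∈ B.D → B.le v (tb i) → B.le v w → B.le w (tb j) →
        B.le v y → i = j := by
      intro i j y v w h1 h2 h3 h4 h5 h6
      have h7 : B.r (s i) v := lt_of_lev (hst i) h3 (hlevB v h2 h1 _ (hsA i))
      have h8 : B.r (s j) v := lt_of_lev (hst j) (le_trans h4 h5) (hlevB v h2 h1 _ (hsA j))
      rcases B.lin _ _ _ h7 h8 with h9 | h9 | h9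
      · exact hs h9
      · exact absurd (B.lev _ _ h9) (by rw [hs' i j]; exact lt_irrefl _)
      · exact absurd (B.lev _ _ h9) (by rw [hs' i j]; exact lt_irrefl _)
    rintro i j y ⟨v, h1, h2, h3, h4⟩ ⟨v', h1', h2', h3', h4'⟩
    rcases lin' h4 h4' with h5 | h5 | h5
    · exact key i j y v v' h1 h2 h3 (Or.inl h5) h3' h4
    · exact key i j y v v' h1 h2 h3 (Or.inr h5) h3' h4
    · exact (key j i y v' v h1' h2' h3' (Or.inr h5) h3 h4').symm
  let Cr : Nd K → Nd K → Prop := fun x y => ∃ i, Link i y ∧ A.le x (ta i)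
  have hCrA : ∀ x y, Cr x y → x ∈ A.D := fun x y ⟨i, _, h⟩ => mem_left h (hta i)
  have hCrB : ∀ x y, Cr x y → y ∈ B.D ∧ y.1 ∉ Λ ∧ y ∉ A.D := fun x y ⟨i, h, _⟩ =>
    ⟨hLinkB i y h, hLinkΛ i y h, hLinkA i y h⟩
  -- nodes of `A` below common nodes are common
  have hAlow : ∀ x y, A.r x y → y.1 ∈ Λ → x.1 ∈ Λ := by
    intro x y h hy
    by_contra h1
    exact absurd (A.lev _ _ h) (not_lt.2 (hlevA x (A.mem _ _ h).1 h1 y.1 hy).le)
  have hBlow : ∀ x y, B.r x y → y.1 ∈ Λ → x.1 ∈ Λ := by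
    intro x y h hy
    by_contra h1
    have h2 : y ∈ A.D := (hR _ hy).2 (B.mem _ _ h).2
    exact absurd (B.lev _ _ h) (not_lt.2 (hlevB x (B.mem _ _ h).1 h1 y h2).le)
  have hBA : ∀ x y, B.r x y → y ∈ A.D → A.r x y := by
    intro x y h hy
    have h1 := hcom y hy (B.mem _ _ h).2
    exact (hRr x y (hBlow x y h h1) h1).2 h
  have hAB : ∀ x y, A.r x y → y ∈ B.D → B.r x y := by
    intro x y h hy
    have h1 := hcom y (A.mem _ _ h).2 hy
    exact (hRr x y (hAlow x y h h1) h1).1 h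
  -- a linked node: nodes of `B` below it
  have hLink3 : ∀ i z x, Link i z → B.r x z → x.1 ∉ Λ → Link i x := by
    rintro i z x ⟨v, h1, h2, h3, h4⟩ hxz hx
    rcases lin' (Or.inr hxz) h4 with h5 | h5 | h5
    · exact ⟨v, h1, h2, h3, Or.inl h5.symm⟩
    · exact ⟨x, hx, (B.mem _ _ hxz).1, le_trans (Or.inr h5) h3, Or.inl rfl⟩
    · exact ⟨v, h1, h2, h3, Or.inr h5⟩
  have hBCr : ∀ i x y z, B.r x z → Link i z → A.le y (ta i) →
      x = y ∨ (A.r x y ∨ B.r x y ∨ Cr x y) ∨ (A.r y x ∨ B.r y x ∨ Cr y x) := by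
    intro i x y z h h1 h2
    by_cases hx : x.1 ∈ Λ
    · have h3 := hLink1 i z h1 x hx ((hR _ hx).2 (B.mem _ _ h).1) (Or.inr h)
      rcases lin' h3 h2 with h4 | h4 | h4
      · exact Or.inl h4
      · exact Or.inr (Or.inl (Or.inl h4))
      · exact Or.inr (Or.inr (Or.inl h4))
    · exact Or.inr (Or.inr (Or.inr (Or.inr ⟨i, hLink3 i z x h1 h hx, h2⟩)))
  refine ⟨⟨A.D ∪ B.D, fun x y => A.r x y ∨ B.r x y ∨ Cr x y, ?_, ?_, ?_, ?_⟩,
    ⟨Finset.subset_union_left, ?_⟩, ⟨Finset.subset_union_right, ?_⟩, ?_⟩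
  · rintro x y (h | h | h)
    · exact ⟨Finset.mem_union_left _ (A.mem _ _ h).1, Finset.mem_union_left _ (A.mem _ _ h).2⟩
    · exact ⟨Finset.mem_union_right _ (B.mem _ _ h).1, Finset.mem_union_right _ (B.mem _ _ h).2⟩
    · exact ⟨Finset.mem_union_left _ (hCrA _ _ h), Finset.mem_union_right _ (hCrB _ _ h).1⟩
  · rintro x y (h | h | h)
    · exact A.lev _ _ h
    · exact B.lev _ _ h
    · exact hlevB y (hCrB _ _ h).1 (hCrB _ _ h).2.1 x (hCrA _ _ h)
  · rintro x y z (h | h | h) (h' | h' | h')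
    · exact Or.inl (A.trans _ _ _ h h')
    · exact Or.inr (Or.inl (B.trans _ _ _ (hAB _ _ h (B.mem _ _ h').1) h'))
    · obtain ⟨i, h1, h2⟩ := h'
      exact Or.inr (Or.inr ⟨i, h1, le_trans (Or.inr h) h2⟩)
    · exact Or.inl (A.trans _ _ _ (hBA _ _ h (A.mem _ _ h').1) h')
    · exact Or.inr (Or.inl (B.trans _ _ _ h h'))
    · have h3 := hBA _ _ h (hCrA _ _ h')
      obtain ⟨i, h1, h2⟩ := h'
      exact Or.inr (Or.inr ⟨i, h1, le_trans (Or.inr h3) h2⟩)
    · exact absurd (A.mem _ _ h').1 (hCrB _ _ h).2.2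
    · obtain ⟨i, ⟨v, h1, h2, h3, h4⟩, h5⟩ := h
      exact Or.inr (Or.inr ⟨i, ⟨v, h1, h2, h3, le_trans h4 (Or.inr h')⟩, h5⟩)
    · exact absurd (hCrA _ _ h') (hCrB _ _ h).2.2
  · rintro x y z (h | h | h) (h' | h' | h')
    · rcases A.lin _ _ _ h h' with h1 | h1 | h1
      · exact Or.inl h1
      · exact Or.inr (Or.inl (Or.inl h1))
      · exact Or.inr (Or.inr (Or.inl h1))
    · rcases A.lin _ _ _ h (hBA _ _ h' (A.mem _ _ h).2) with h1 | h1 | h1
      · exact Or.inl h1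
      · exact Or.inr (Or.inl (Or.inl h1))
      · exact Or.inr (Or.inr (Or.inl h1))
    · exact absurd (A.mem _ _ h).2 (hCrB _ _ h').2.2
    · rcases A.lin _ _ _ (hBA _ _ h (A.mem _ _ h').2) h' with h1 | h1 | h1
      · exact Or.inl h1
      · exact Or.inr (Or.inl (Or.inl h1))
      · exact Or.inr (Or.inr (Or.inl h1))
    · rcases B.lin _ _ _ h h' with h1 | h1 | h1
      · exact Or.inl h1
      · exact Or.inr (Or.inl (Or.inr (Or.inl h1)))
      · exact Or.inr (Or.inr (Or.inr (Or.inl h1)))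
    · obtain ⟨i, h1, h2⟩ := h'
      exact hBCr i x y z h h1 h2
    · exact absurd (A.mem _ _ h').2 (hCrB _ _ h).2.2
    · obtain ⟨i, h1, h2⟩ := h
      rcases hBCr i y x z h' h1 h2 with h3 | h3 | h3
      · exact Or.inl h3.symm
      · exact Or.inr (Or.inr h3)
      · exact Or.inr (Or.inl h3)
    · obtain ⟨i, h1, h2⟩ := h
      obtain ⟨j, h1', h2'⟩ := h'
      have hij := hLink2 i j z h1 h1'
      subst hij
      rcases lin' h2 h2' with h3 | h3 | h3
      · exact Or.inl h3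
      · exact Or.inr (Or.inl (Or.inl h3))
      · exact Or.inr (Or.inr (Or.inl h3))
  · intro x _ y hy
    constructor
    · rintro (h | h | h)
      · exact h
      · exact hBA _ _ h hy
      · exact absurd hy (hCrB _ _ h).2.2
    · exact Or.inl
  · intro x hx y hy
    constructor
    · rintro (h | h | h)
      · exact hAB _ _ h hy
      · exact h
      · have hxA := hCrA _ _ h
        obtain ⟨i, ⟨v, h1, h2, h3, h4⟩, h5⟩ := h
        have h6 := (hroot i x (hcom x hxA hx)).1 h5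
        have h7 : B.r x v := lt_of_lev h6 h3 (hlevB v h2 h1 x hxA)
        rcases h4 with h4 | h4
        · rw [← h4]
          exact h7
        · exact B.trans _ _ _ h7 h4
    · exact fun h => Or.inr (Or.inl h)
  · intro i
    by_cases hi : (tb i).1 ∈ Λ
    · right
      rcases (hroot i (tb i) hi).2 (Or.inl rfl) with h | h
      · exact Or.inl h
      · exact Or.inr (Or.inl h)
    · left
      exact Or.inr (Or.inr (Or.inr ⟨i, ⟨tb i, hi, htb i, Or.inl rfl, Or.inl rfl⟩, Or.inl rfl⟩))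

end Cond

end Pool.Agent.V11242.FS
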