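import Mathlib
import Pool.Agent.V11242.FS.Cond
import Pool.Agent.Helper126.Fact

/-!
# The finite trees force a free Suslin tree
-/

set_option autoImplicit false
set_option linter.unusedSectionVars false

namespace Pool.Agent.V11242.FS

open Set Cardinal Pool.Agent.Helper669.Forcing

variable {K : Type} [LinearOrder K]

namespace Cond

/-- The combinatorial core of the chain conditions. -/
theorem combine (hI : ∀ k : K, (Iic k).Countable) {ι : Type} {n : ℕ} (J : Set ι)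
    (hJ : ¬ J.Countable) (p : ι → Cond K) (s : Fin n → Nd K) (t : ι → Fin n → Nd K)
    (ht : ∀ a i, t a i ∈ (p a).D) (hst : ∀ a i, (p a).le (s i) (t a i))
    (hs : Function.Injective s) (hs' : ∀ i j, (s i).1 = (s j).1)
    (Bad : ι → Set ι) (hBad : ∀ a, (Bad a).Countable) :
    ∃ a ∈ J, ∃ b ∈ J, a ≠ b ∧ b ∉ Bad a ∧
      ∃ q : Cond K, q ≤ p a ∧ q ≤ p b ∧ ∀ i, q.le (t a i) (t b i) ∨ q.le (t b i) (t a i) := by
  classical
  obtain ⟨J', Λ, hJ'J, hJ', hΛ, hΛ'⟩ := Helper126.delta_system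
    (fun a => (p a).D.image Prod.fst) J hJ
  -- the colouring
  have hX : Countable {x : Nd K // x.1 ∈ Λ} := by
    have h1 : Function.Injective (fun x : {x : Nd K // x.1 ∈ Λ} =>
        ((⟨x.1.1, x.2⟩, x.1.2) : {l : K // l ∈ Λ} × ℕ)) := by
      intro x y h
      have h2 := congrArg (fun z : {l : K // l ∈ Λ} × ℕ => (z.1.1, z.2)) h
      exact Subtype.ext h2
    exact h1.countable
  let R : ι → Finset {x : Nd K // x.1 ∈ Λ} := fun a => (p a).D.subtype fun x => x.1 ∈ Λ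
  have hR : ∀ a (x : {x : Nd K // x.1 ∈ Λ}), x ∈ R a ↔ x.1 ∈ (p a).D := fun a x =>
    Finset.mem_subtype
  let col : ι → Finset {x : Nd K // x.1 ∈ Λ} ×
      Finset ({x : Nd K // x.1 ∈ Λ} × {x : Nd K // x.1 ∈ Λ}) ×
      (Fin n → Finset {x : Nd K // x.1 ∈ Λ}) := fun a =>
    (R a, (R a ×ˢ R a).filter (fun z => (p a).r z.1.1 z.2.1),
      fun i => (R a).filter fun x => (p a).le x.1 (t a i))
  obtain ⟨c, hc⟩ := Helper126.uncountable_fiber col J' hJ'
  -- low levels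
  have hlow : ∀ k : K, {a ∈ J' | ∃ x ∈ (p a).D, x.1 ∉ Λ ∧ x.1 ≤ k}.Countable := by
    intro k
    refine Set.Countable.mono (s₂ := ⋃ l ∈ Iic k, {a ∈ J' | l ∈ (p a).D.image Prod.fst ∧ l ∉ Λ}) ?_
      ((hI k).biUnion fun l _ => Set.Subsingleton.countable ?_)
    · rintro a ⟨ha, x, hx, hx1, hx2⟩
      exact mem_iUnion₂.2 ⟨x.1, hx2, ha, Finset.mem_image_of_mem _ hx, hx1⟩
    · rintro a ⟨ha, h1, h2⟩ b ⟨hb, h1', -⟩
      by_contra hne
      exact h2 (hΛ' a ha b hb hne l h1 h1')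
  have hlow2 : ∀ F : Finset K, (⋃ k ∈ F, {a ∈ J' | ∃ x ∈ (p a).D, x.1 ∉ Λ ∧ x.1 ≤ k}).Countable :=
    fun F => F.countable_toSet.biUnion fun k _ => hlow k
  obtain ⟨a, ⟨haJ', hac⟩, ha⟩ : ∃ a ∈ {a ∈ J' | col a = c},
      a ∉ ⋃ k ∈ Λ, {a ∈ J' | ∃ x ∈ (p a).D, x.1 ∉ Λ ∧ x.1 ≤ k} := by
    by_contra hcon
    push Not at hcon
    exact hc ((hlow2 Λ).mono fun a ha => hcon a ha)
  obtain ⟨b, ⟨hbJ', hbc⟩, hb⟩ : ∃ b ∈ {a ∈ J' | col a = c},
      b ∉ ((⋃ k ∈ (p a).D.image Prod.fst, {a ∈ J' | ∃ x ∈ (p a).D, x.1 ∉ Λ ∧ x.1 ≤ k}) ∪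
        Bad a) ∪ {a} := by
    by_contra hcon
    push Not at hcon
    exact hc ((((hlow2 _).union (hBad a)).union (countable_singleton a)).mono
      fun b hb => hcon b hb)
  rw [mem_union, mem_union, not_or, not_or] at hb
  obtain ⟨⟨hb1, hb2⟩, hb3⟩ := hb
  have hne : a ≠ b := fun h => hb3 h.symm
  have hcol : col a = col b := hac.trans hbc.symm
  have hc1 : R a = R b := congrArg Prod.fst hcol
  have hc2 := congrArg (fun z => z.2.1) hcol
  have hc3 := congrArg (fun z => z.2.2) hcol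
  simp only [col] at hc2 hc3
  refine ⟨a, hJ'J haJ', b, hJ'J hbJ', hne, hb2, ?_⟩
  refine amalgamation (p a) (p b) Λ s (t a) (t b) (ht a) (ht b) ?_ ?_ ?_ ?_ ?_ hs hs' ?_ (hst b)
  · intro x hx
    have h1 := hR a ⟨x, hx⟩
    have h2 := hR b ⟨x, hx⟩
    rw [hc1] at h1
    exact h1.symm.trans h2
  · intro x y hx hy
    have h1 : ∀ d, ((⟨x, hx⟩, ⟨y, hy⟩) : {x : Nd K // x.1 ∈ Λ} × {x : Nd K // x.1 ∈ Λ}) ∈
        (R d ×ˢ R d).filter (fun z => (p d).r z.1.1 z.2.1) ↔ (p d).r x y := by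
      intro d
      rw [Finset.mem_filter, Finset.mem_product, hR, hR]
      exact ⟨fun h => h.2, fun h => ⟨(p d).mem _ _ h, h⟩⟩
    rw [← h1 a, ← h1 b, hc2]
  · intro x hx hx' l hl
    by_contra hcon
    exact ha (mem_iUnion₂.2 ⟨l, hl, haJ', x, hx, hx', not_lt.1 hcon⟩)
  · intro y hy hy' x hx
    by_contra hcon
    exact hb1 (mem_iUnion₂.2 ⟨x.1, Finset.mem_image_of_mem _ hx, hbJ', y, hy, hy', not_lt.1 hcon⟩)
  · intro i x hx
    have h1 : ∀ d, (⟨x, hx⟩ : {x : Nd K // x.1 ∈ Λ}) ∈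
        (R d).filter (fun x => (p d).le x.1 (t d i)) ↔ (p d).le x (t d i) := by
      intro d
      rw [Finset.mem_filter, hR]
      exact ⟨fun h => h.2, fun h => ⟨mem_left h (ht d i), h⟩⟩
    rw [← h1 a, ← h1 b]
    have h2 := congrFun hc3 i
    rw [h2]
  · intro i
    exact hΛ' a haJ' b hbJ' hne _ (Finset.mem_image_of_mem _ (mem_left (hst a i) (ht a i)))
      (Finset.mem_image_of_mem _ (mem_left (hst b i) (ht b i)))

theorem ccc (hI : ∀ k : K, (Iic k).Countable) (A : Set (Cond K))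
    (hA : ∀ p ∈ A, ∀ q ∈ A, p ≠ q → ¬ ∃ r, r ≤ p ∧ r ≤ q) : A.Countable := by
  by_contra hunc
  obtain ⟨a, ha, b, hb, hne, -, q, h1, h2, -⟩ := combine (n := 0) hI A hunc (fun p => p)
    (fun i => i.elim0) (fun _ i => i.elim0) (fun _ i => i.elim0) (fun _ i => i.elim0)
    (fun i => i.elim0) (fun i => i.elim0) (fun _ => ∅) (fun _ => countable_empty)
  exact hA a ha b hb hne ⟨q, h1, h2⟩

/-! ### The name of the tree -/

/-- the name of the order -/
def L (x y : Nd K) : Set (Cond K) := {p | p.r x y}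

theorem down_L (x y : Nd K) : Down (L x y : Set (Cond K)) := fun _ hp _ hq => r_of_le hq hp

theorem exists_of_L {p : Cond K} {x y : Nd K} (h : p ∈ meets (L x y)) : ∃ q ≤ p, q.r x y :=
  exists_of_meets (down_L x y) h

theorem r_of_meets {p : Cond K} {x y : Nd K} (h : p ∈ meets (L x y)) (hx : x ∈ p.D)
    (hy : y ∈ p.D) : p.r x y := by
  obtain ⟨q, hq, hr⟩ := exists_of_L h
  exact (hq.2 x hx y hy).1 hr

theorem isTree (p : Cond K) : p ∈ IsTreeN (L : Nd K → Nd K → Set (Cond K)) := by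
  refine ⟨fun x y => mem_fimp.2 fun q _ h => ?_, fun x y z => mem_fimp.2 fun q _ h => ?_,
    fun y β => mem_fimp.2 fun q _ h => ?_, fun x y z => mem_fimp.2 fun q _ h => ?_,
    fun x β m => mem_fimp.2 fun q _ h => ?_⟩
  · obtain ⟨r, hr, hr'⟩ := exists_of_L h
    exact ⟨r, hr, r.lev _ _ hr'⟩
  · obtain ⟨r, hr, hr'⟩ := exists_of_L h.1
    obtain ⟨r', hr1, hr2⟩ := exists_of_L (down_meets _ _ h.2 r hr)
    exact ⟨r', hr1.trans hr, meets_of_mem (r'.trans _ _ _ (r_of_le hr1 hr') hr2)⟩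
  · obtain ⟨r, hr, x, hx, hr'⟩ := exists_pred_node q y β h
    exact ⟨r, hr, mem_fex_of_mem x (down_fand (down_fground _) (down_meets _))
      ⟨hx, meets_of_mem hr'⟩⟩
  · obtain ⟨h1, h2, h3⟩ := h
    have h3 : x.1 = y.1 := h3
    obtain ⟨r, hr, hr'⟩ := exists_of_L h1
    obtain ⟨r', hr1, hr2⟩ := exists_of_L (down_meets _ _ h2 r hr)
    refine ⟨r', hr1.trans hr, ?_⟩
    rcases r'.lin _ _ _ (r_of_le hr1 hr') hr2 with h4 | h4 | h4
    · exact h4
    · exact absurd h3 (r'.lev _ _ h4).ne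
    · exact absurd h3 (r'.lev _ _ h4).ne'
  · obtain ⟨r, hr, j, hj, hr'⟩ := exists_succ_node q x β m h
    exact ⟨r, hr, mem_fex_of_mem j (down_fand (down_fground _) (down_meets _))
      ⟨hj, meets_of_mem hr'⟩⟩

theorem leN_of_le {q : Cond K} {x y : Nd K} (h : q.le x y) : q ∈ LeN L x y :=
  mem_fimp.2 fun r hr hne => by
    rcases h with h | h
    · exact absurd h hne
    · exact ⟨r, le_rfl, meets_of_mem (r_of_le hr h)⟩

theorem le_of_leN {q : Cond K} {x y : Nd K} (h : q ∈ LeN L x y) (hx : x ∈ q.D) (hy : y ∈ q.D) :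
    q.le x y := by
  by_cases hne : x = y
  · exact Or.inl hne
  · right
    obtain ⟨r, hr, hr'⟩ := mem_fimp.1 h q le_rfl hne
    exact (hr.2 x hx y hy).1 (r_of_meets hr' (hr.1 hx) (hr.1 hy))

theorem down_LeN (x y : Nd K) : Down (LeN (L : Nd K → Nd K → Set (Cond K)) x y) := down_fimp _ _

theorem compN_of_le {q : Cond K} {x y : Nd K} (h : q.le x y ∨ q.le y x) : q ∈ CompN L x y :=
  mem_fimp.2 fun r hr hne => by
    rcases h with h | h
    · exact absurd (down_LeN _ _ _ (leN_of_le h) r hr) (hne r le_rfl)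
    · exact ⟨r, le_rfl, down_LeN _ _ _ (leN_of_le h) r hr⟩

theorem isFree (hI : ∀ k : K, (Iic k).Countable) (hK : ¬ (Set.univ : Set K).Countable)
    (p : Cond K) : p ∈ FreeN (L : Nd K → Nd K → Set (Cond K)) := by
  classical
  intro n s hs Z f
  refine mem_fimp.2 fun q _ h => ?_
  obtain ⟨hZ, hf, hsf⟩ := h
  -- the decisions
  have h1 : ∀ a : K, ∃ (b : K) (t : Fin n → Nd K) (p' : Cond K), p' ≤ q ∧ a < b ∧
      p' ∈ meets (Z b) ∧ p' ∈ meets (f b t) ∧ (∀ i, t i ∈ p'.D) ∧ ∀ i, p'.le (s i) (t i) := by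
    intro a
    obtain ⟨p1, hp1, b, hab, hb⟩ := mem_fex.1 (hZ a) q le_rfl
    obtain ⟨p2, hp2, t, ht⟩ := IsFun.total (down_IsFun f _ hf p1 hp1) b
    obtain ⟨p3, hp3, hD⟩ := exists_mem_finset p2 (Finset.univ.image s ∪ Finset.univ.image t)
    have h2 : ∀ i, ∀ p4 ≤ p3, ∃ p5 ≤ p4, p5 ∈ LeN L (s i) (t i) := by
      intro i p4 hp4
      obtain ⟨p5, hp5, h3⟩ := mem_fimp.1 (hsf b t) p4
        (((hp4.trans hp3).trans hp2).trans hp1) (down_meets _ _ ht p4 (hp4.trans hp3))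
      exact ⟨p5, hp5, h3 i⟩
    have hsD : ∀ i, s i ∈ p3.D := fun i =>
      hD (Finset.mem_union_left _ (Finset.mem_image_of_mem _ (Finset.mem_univ i)))
    have htD : ∀ i, t i ∈ p3.D := fun i =>
      hD (Finset.mem_union_right _ (Finset.mem_image_of_mem _ (Finset.mem_univ i)))
    refine ⟨b, t, p3, (hp3.trans hp2).trans hp1, hab, down_meets _ _ hb p3 (hp3.trans hp2),
      down_meets _ _ ht p3 hp3, htD, fun i => ?_⟩
    obtain ⟨p5, hp5, h3⟩ := h2 i p3 le_rfl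
    rcases le_of_leN h3 (hp5.1 (hsD i)) (hp5.1 (htD i)) with h4 | h4
    · exact Or.inl h4
    · exact Or.inr ((hp5.2 _ (hsD i) _ (htD i)).1 h4)
  choose β t p' hp' hβ hpZ hpf htD hst using h1
  obtain ⟨a, -, b, -, -, hbad, r, hra, hrb, hr⟩ := combine hI Set.univ hK p' s t htD hst hs.1 hs.2
    (fun a => {b | β b = β a}) (fun a => (hI (β a)).mono fun b (hb : β b = β a) => by
      rw [mem_Iic, ← hb]
      exact (hβ b).le)
  have hne : β a ≠ β b := fun h => hbad h.symm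
  refine ⟨r, hra.trans (hp' a), mem_fex_of_mem (β a) (down_fex _) (mem_fex_of_mem (β b) ?_ ?_)⟩
  · exact down_fand (down_fground _) (down_fand (down_meets _) (down_fand (down_meets _)
      (down_fex _)))
  · refine ⟨hne, down_meets _ _ (hpZ a) r hra, down_meets _ _ (hpZ b) r hrb,
      mem_fex_of_mem (t a) (down_fex _) (mem_fex_of_mem (t b) ?_ ?_)⟩
    · exact down_fand (down_meets _) (down_fand (down_meets _) (down_fall fun _ => down_fimp _ _))
    · exact ⟨down_meets _ _ (hpf a) r hra, down_meets _ _ (hpf b) r hrb,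
        fun i => compN_of_le (hr i)⟩

end Cond

open Cardinal in
/-- There is a ccc partial order which forces the sentence `Phi`. -/
theorem exists_forcing : ∃ (K P : Type) (_ : LinearOrder K) (_ : WellFoundedLT K)
    (_ : NoMaxOrder K) (_ : Preorder P),
    (∀ k : K, (Iic k).Countable) ∧ Nonempty P ∧
    (∀ A : Set P, (∀ p ∈ A, ∀ q ∈ A, p ≠ q → ¬ ∃ r, r ≤ p ∧ r ≤ q) → A.Countable) ∧
    ∀ p : P, p ∈ PhiN P K := by
  let K : Type := (Cardinal.aleph 1).ord.ToType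
  have hKc : #K = ℵ₁ := by simp [K]
  have hun : ¬ (Set.univ : Set K).Countable := by
    rw [countable_univ_iff, ← Cardinal.mk_le_aleph0_iff, hKc]
    exact not_le.2 aleph0_lt_aleph_one
  have hIic : ∀ k : K, (Iic k).Countable := by
    intro k
    have h1 : #(Iio k) < ℵ₁ := Cardinal.mk_Iio_toType_ord_lt k
    have h2 : (Iio k).Countable := by
      rw [← Cardinal.le_aleph0_iff_set_countable]
      exact Order.lt_succ_iff.1 (by rwa [succ_aleph0])
    rw [← Iio_insert]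
    exact h2.insert k
  have hmax : NoMaxOrder K := by
    refine ⟨fun k => ?_⟩
    by_contra hcon
    push Not at hcon
    exact hun ((hIic k).mono fun j _ => hcon j)
  refine ⟨K, Cond K, inferInstance, inferInstance, hmax, inferInstance, hIic, inferInstance,
    Cond.ccc hIic, fun p => mem_fex_of_mem Cond.L ?_ ⟨Cond.isTree p, Cond.isFree hIic hun p⟩⟩
  intro p _ q _
  exact ⟨Cond.isTree q, Cond.isFree hIic hun q⟩

end Pool.Agent.V11242.FS
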