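import Mathlib
import Pool.Agent.V11242.FS.Defs

/-!
# Catching finite sets of nodes
-/

set_option autoImplicit false
set_option linter.unusedSectionVars false

namespace Pool.Agent.V11242.FS

open Set Cardinal

variable {K : Type} [LinearOrder K] {lt : Nd K → Nd K → Prop}

theorem Le.refl (x : Nd K) : Le lt x x := Or.inl rfl

theorem Le.trans (hT : IsTree lt) {x y z : Nd K} (h1 : Le lt x y) (h2 : Le lt y z) :
    Le lt x z := by
  rcases h1 with rfl | h1
  · exact h2
  · rcases h2 with rfl | h2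
    · exact Or.inr h1
    · exact Or.inr (hT.trans _ _ _ h1 h2)

theorem Le.lev (hT : IsTree lt) {x y : Nd K} (h : Le lt x y) : x.1 ≤ y.1 := by
  rcases h with rfl | h
  · exact le_rfl
  · exact (hT.lev _ _ h).le

theorem Le.eq_of_lev (hT : IsTree lt) {x y : Nd K} (h : Le lt x y) (h' : y.1 ≤ x.1) : x = y := by
  rcases h with h | h
  · exact h
  · exact absurd (hT.lev _ _ h) (not_lt.2 h')

theorem IsTree.lin (hT : IsTree lt) {x y z : Nd K} (h1 : Le lt x z) (h2 : Le lt y z)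
    (h : x.1 ≤ y.1) : Le lt x y := by
  rcases h2 with rfl | h2
  · exact h1
  · rcases h.lt_or_eq with h | h
    · obtain ⟨w, hw, hw'⟩ := hT.pred y x.1 h
      have h1' : lt x z := by
        rcases h1 with rfl | h1
        · exact absurd (hT.lev _ _ h2) (not_lt.2 h.le)
        · exact h1
      rw [hT.uniq x w z h1' (hT.trans _ _ _ hw' h2) hw.symm]
      exact Or.inr hw'
    · have h1' : lt x z := by
        rcases h1 with rfl | h1
        · exact absurd (hT.lev _ _ h2) (not_lt.2 h.le)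
        · exact h1
      exact Or.inl (hT.uniq x y z h1' h2 h)

theorem IsTree.comp_of_le (hT : IsTree lt) {x y z : Nd K} (h1 : Le lt x z) (h2 : Le lt y z) :
    Comp lt x y := by
  rcases le_total x.1 y.1 with h | h
  · exact Or.inl (hT.lin h1 h2 h)
  · exact Or.inr (hT.lin h2 h1 h)

theorem nonempty_of_free (hF : Free lt) : Nonempty K := by
  rcases isEmpty_or_nonempty K with h | h
  · obtain ⟨a, -⟩ := hF 0 (fun i => i.elim0) ⟨fun i => i.elim0, fun i => i.elim0⟩
      (fun _ => True) (fun _ i => i.elim0) (fun a => (h.false a).elim) (fun _ i => i.elim0)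
    exact ⟨a⟩
  · exact h

/-- a node of the given level -/
theorem exists_succ (hT : IsTree lt) (x : Nd K) (β : K) (h : x.1 ≤ β) :
    ∃ y, Le lt x y ∧ β ≤ y.1 := by
  rcases h.lt_or_eq with h | h
  · obtain ⟨j, -, hj⟩ := hT.succ x β 0 h
    exact ⟨_, Or.inr hj, le_rfl⟩
  · exact ⟨x, Or.inl rfl, h.ge⟩

theorem exists_succ' (hT : IsTree lt) (x : Nd K) (β : K) : ∃ y, Le lt x y ∧ β ≤ y.1 := by
  rcases le_total x.1 β with h | h
  · exact exists_succ hT x β h
  · exact ⟨x, Or.inl rfl, h⟩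

variable [NoMaxOrder K]

theorem exists_ub (hT : IsTree lt) (hF : Free lt) (g : ℕ → K) : ∃ k, ∀ n, g n < k := by
  classical
  by_contra hcon
  push Not at hcon
  obtain ⟨k0⟩ := nonempty_of_free hF
  obtain ⟨k1, hk1⟩ := exists_gt k0
  have hinf : {j : ℕ | lt (k0, 0) (k1, j)}.Infinite := by
    rw [Set.infinite_iff_exists_gt]
    intro m
    obtain ⟨j, hj, hj'⟩ := hT.succ (k0, 0) k1 (m + 1) hk1
    exact ⟨j, hj', hj⟩
  let e := hinf.natEmbedding
  have hex : ∀ b : K, (∃ n, b = g n) → ∃ n, b = g n := fun _ h => h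
  let N : K → ℕ := fun b => if h : ∃ n, b = g n then Nat.find h else 0
  have hN : ∀ b, (∃ n, b = g n) → b = g (N b) := by
    intro b hb
    simp only [N, dif_pos hb]
    exact Nat.find_spec hb
  obtain ⟨a, b, hab, ha, hb, h⟩ := hF 1 (fun _ => (k0, 0))
    ⟨fun i j _ => Subsingleton.elim i j, fun _ _ => rfl⟩ (fun b => ∃ n, b = g n)
    (fun b _ => (k1, (e (N b)).1)) (by
      intro a
      obtain ⟨a', ha'⟩ := exists_gt a
      obtain ⟨n, hn⟩ := hcon a'
      exact ⟨g n, ha'.trans_le hn, n, rfl⟩) (fun b i => Or.inr (e (N b)).2)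
  have h1 : ((k1, (e (N a)).1) : Nd K) = (k1, (e (N b)).1) := by
    rcases h 0 with h | h
    · exact h.eq_of_lev hT le_rfl
    · exact (h.eq_of_lev hT le_rfl).symm
  have h2 : (e (N a)).1 = (e (N b)).1 := congrArg Prod.snd h1
  have h3 : N a = N b := e.injective (Subtype.ext h2)
  rw [hN a ha, hN b hb, h3] at hab
  exact hab rfl

theorem exists_ub' (hT : IsTree lt) (hF : Free lt) {S : Set K} (hS : S.Countable) :
    ∃ k, ∀ s ∈ S, s < k := by
  rcases S.eq_empty_or_nonempty with rfl | hne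
  · obtain ⟨k0⟩ := nonempty_of_free hF
    exact ⟨k0, fun s hs => absurd hs (notMem_empty s)⟩
  · obtain ⟨g, rfl⟩ := hS.exists_eq_range hne
    obtain ⟨k, hk⟩ := exists_ub hT hF g
    exact ⟨k, by rintro _ ⟨n, rfl⟩; exact hk n⟩

theorem mk_le (hI : ∀ k : K, (Iic k).Countable) : #K ≤ ℵ₁ := by
  by_contra hcon
  push Not at hcon
  obtain ⟨S, hS⟩ := Cardinal.le_mk_iff_exists_set.1 hcon.le
  have h1 : (univ : Set K) ⊆ ⋃ s ∈ S, Iic s := by
    intro k _
    by_contra h
    simp only [mem_iUnion, mem_Iic, not_exists, not_le] at h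
    have h2 : S.Countable := (hI k).mono fun s hs => (h s hs).le
    rw [← Cardinal.le_aleph0_iff_set_countable, hS] at h2
    exact absurd h2 (not_le.2 Cardinal.aleph0_lt_aleph_one)
  have h2 : #K ≤ ℵ₁ := by
    rw [← mk_univ]
    refine (mk_le_mk_of_subset h1).trans ((mk_biUnion_le _ _).trans ?_)
    rw [hS]
    refine (mul_le_mul' le_rfl (ciSup_le' fun s => ?_)).trans
      (Cardinal.mul_aleph0_eq (Cardinal.aleph0_le_aleph 1)).le
    exact (hI s.1).le_aleph0
  exact absurd h2 (not_le.2 hcon)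

/-- tuples above `s` -/
def Ab (lt : Nd K → Nd K → Prop) {n : ℕ} (s t : Fin n → Nd K) : Prop := ∀ i, Le lt (s i) (t i)

theorem ccc_set (hI : ∀ k : K, (Iic k).Countable) (hF : Free lt) {n : ℕ} {s : Fin n → Nd K}
    (hs : Function.Injective s ∧ ∀ i j, (s i).1 = (s j).1) (A : Set (Fin n → Nd K))
    (hA : ∀ t ∈ A, Ab lt s t)
    (hA' : ∀ t ∈ A, ∀ u ∈ A, t ≠ u → ¬ ∀ i, Comp lt (t i) (u i)) : A.Countable := by
  by_contra hunc
  have h1 : #K ≤ #A := by
    refine (mk_le hI).trans ?_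
    rw [← succ_aleph0, Order.succ_le_iff, ← not_le, le_aleph0_iff_set_countable]
    exact hunc
  obtain ⟨e⟩ := h1
  obtain ⟨a, b, hab, -, -, h⟩ := hF n s hs (fun _ => True) (fun a => (e a).1)
    (fun a => (exists_gt a).imp fun _ h => ⟨h, trivial⟩) (fun a => hA _ (e a).2)
  exact hA' _ (e a).2 _ (e b).2 (fun h => hab (e.injective (Subtype.ext h))) h

/-- Every dense subset of the product contains a countable subset such that all elements of
the product of sufficiently large levels lie above some element of this subset. -/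
theorem product_catch (hI : ∀ k : K, (Iic k).Countable) (hT : IsTree lt) (hF : Free lt) {n : ℕ}
    {s : Fin n → Nd K} (hs : Function.Injective s ∧ ∀ i j, (s i).1 = (s j).1)
    (D : Set (Fin n → Nd K)) (hD : ∀ t, Ab lt s t → ∃ u ∈ D, Ab lt t u) :
    ∃ (A : Set (Fin n → Nd K)) (δ : K), A.Countable ∧ A ⊆ D ∧
      ∀ t, Ab lt s t → (∀ i, δ ≤ (t i).1) → ∃ u ∈ A, Ab lt u t := by
  obtain ⟨A, ⟨⟨hA1, hA2, hA3⟩, hmax⟩⟩ : ∃ A, Maximal (fun A : Set (Fin n → Nd K) => A ⊆ D ∧
      (∀ t ∈ A, Ab lt s t) ∧ ∀ t ∈ A, ∀ u ∈ A, t ≠ u → ¬ ∀ i, Comp lt (t i) (u i)) A := by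
    apply zorn_subset {A : Set (Fin n → Nd K) | A ⊆ D ∧
      (∀ t ∈ A, Ab lt s t) ∧ ∀ t ∈ A, ∀ u ∈ A, t ≠ u → ¬ ∀ i, Comp lt (t i) (u i)}
    intro c hc hchain
    refine ⟨⋃₀ c, ⟨sUnion_subset fun A hA => (hc hA).1, ?_, ?_⟩,
      fun s hs => subset_sUnion_of_mem hs⟩
    · rintro t ⟨A, hA, htA⟩
      exact (hc hA).2.1 t htA
    · rintro p ⟨A, hA, hpA⟩ q ⟨B, hB, hqB⟩ hne
      rcases hchain.total hA hB with h | h
      · exact (hc hB).2.2 p (h hpA) q hqB hne
      · exact (hc hA).2.2 p hpA q (h hqB) hne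
  have hAc : A.Countable := ccc_set hI hF hs A hA2 hA3
  obtain ⟨δ, hδ⟩ := exists_ub' hT hF (S := ⋃ t ∈ A, range fun i => (t i).1)
    (hAc.biUnion fun t _ => countable_range _)
  have hδ' : ∀ t ∈ A, ∀ i, (t i).1 < δ := fun t ht i =>
    hδ _ (mem_iUnion₂.2 ⟨t, ht, i, rfl⟩)
  refine ⟨A, δ, hAc, hA1, fun t ht htδ => ?_⟩
  obtain ⟨u, hu, htu⟩ := hD t ht
  have hsu : Ab lt s u := fun i => (ht i).trans hT (htu i)
  by_cases huA : u ∈ A
  · refine ⟨u, huA, fun i => ?_⟩
    have h1 := (htu i).lev hT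
    exact absurd (hδ' u huA i) (not_lt.2 ((htδ i).trans h1))
  · have h1 : ∃ a ∈ A, ∀ i, Comp lt (a i) (u i) := by
      by_contra hcon
      push Not at hcon
      apply huA
      refine hmax (y := insert u A) ⟨insert_subset hu hA1, ?_, ?_⟩ (subset_insert u A)
        (mem_insert u A)
      · rintro x (rfl | hx)
        · exact hsu
        · exact hA2 x hx
      · rintro x (rfl | hx) y (rfl | hy) hne h
        · exact hne rfl
        · obtain ⟨i, hi⟩ := hcon y hy
          exact hi (h i).symm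
        · obtain ⟨i, hi⟩ := hcon x hx
          exact hi (h i)
        · exact hA3 x hx y hy hne h
    obtain ⟨a, ha, h2⟩ := h1
    refine ⟨a, ha, fun i => ?_⟩
    have h3 : (a i).1 < (t i).1 := (hδ' a ha i).trans_le (htδ i)
    rcases h2 i with h | h
    · exact hT.lin h (htu i) h3.le
    · have h4 := ((htu i).trans hT h).lev hT
      exact absurd h3 (not_lt.2 h4)

open Classical in
/-- the node below `x` on the level `β` -/
noncomputable def pr (lt : Nd K → Nd K → Prop) (x : Nd K) (β : K) : Nd K :=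
  if h : ∃ y : Nd K, y.1 = β ∧ lt y x then h.choose else x

theorem pr_spec (hT : IsTree lt) {x : Nd K} {β : K} (h : β < x.1) :
    (pr lt x β).1 = β ∧ lt (pr lt x β) x := by
  have h1 := hT.pred x β h
  unfold pr
  rw [dif_pos h1]
  exact h1.choose_spec

theorem pr_eq (hT : IsTree lt) {x y : Nd K} {β : K} (h1 : y.1 = β) (h2 : lt y x) :
    pr lt x β = y := by
  have h3 : β < x.1 := h1 ▸ hT.lev _ _ h2
  obtain ⟨h4, h5⟩ := pr_spec hT h3
  exact hT.uniq _ _ x h5 h2 (h4.trans h1.symm)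

theorem pr_pr (hT : IsTree lt) {x : Nd K} {β γ : K} (h : β < γ) (h' : γ < x.1) :
    pr lt (pr lt x γ) β = pr lt x β := by
  obtain ⟨h1, h2⟩ := pr_spec hT h'
  have h3 : β < (pr lt x γ).1 := h1.symm ▸ h
  obtain ⟨h4, h5⟩ := pr_spec hT h3
  exact (pr_eq hT h4 (hT.trans _ _ _ h5 h2)).symm

theorem countable_low (hI : ∀ k : K, (Iic k).Countable) (k : K) :
    {x : Nd K | x.1 ≤ k}.Countable := by
  have : {x : Nd K | x.1 ≤ k} = (Iic k) ×ˢ (univ : Set ℕ) := by
    ext x
    simp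
  rw [this]
  exact (hI k).prod countable_univ

/-- The principle for catching finite sets of nodes. -/
theorem catch_finite (hI : ∀ k : K, (Iic k).Countable) (hT : IsTree lt) (hF : Free lt)
    {σ : Type} (C : σ → Nd K → Prop)
    (hC : ∀ (F₀ : Finset (Nd K)) (n : ℕ) (t : Fin n → Nd K), ∃ u, Ab lt t u ∧
      ∃ c : σ, (∀ x ∈ F₀, C c x) ∧ ∀ i y, Le lt (u i) y → C c y) :
    ∃ S : Set σ, S.Countable ∧ ∀ F : Finset (Nd K), ∃ c ∈ S, ∀ x ∈ F, C c x := by
  classical
  have h1 : ∀ (F₀ : Finset (Nd K)) (n : ℕ) (s : Fin n → Nd K),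
      ∃ (S : Set σ) (δ : K), S.Countable ∧
        ((Function.Injective s ∧ ∀ i j, (s i).1 = (s j).1) →
        ∀ t, Ab lt s t → (∀ i, δ ≤ (t i).1) → ∃ c ∈ S, (∀ x ∈ F₀, C c x) ∧
          ∀ i y, Le lt (t i) y → C c y) := by
    intro F₀ n s
    obtain ⟨k0⟩ := nonempty_of_free hF
    by_cases hs : Function.Injective s ∧ ∀ i j, (s i).1 = (s j).1
    · obtain ⟨A, δ, hA, hAD, h2⟩ := product_catch hI hT hF hs
        {u | ∃ c : σ, (∀ x ∈ F₀, C c x) ∧ ∀ i y, Le lt (u i) y → C c y} (fun t _ => by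
          obtain ⟨u, hu, hc⟩ := hC F₀ n t
          exact ⟨u, hc, hu⟩)
      choose c hc using fun u : A => hAD u.2
      have hA' : Countable A := hA.to_subtype
      refine ⟨range c, δ, countable_range c, fun _ t ht htδ => ?_⟩
      obtain ⟨u, hu, hut⟩ := h2 t ht htδ
      exact ⟨c ⟨u, hu⟩, ⟨_, rfl⟩, (hc ⟨u, hu⟩).1,
        fun i y hy => (hc ⟨u, hu⟩).2 i y ((hut i).trans hT hy)⟩
    · exact ⟨∅, k0, countable_empty, fun h => absurd h hs⟩
  choose S δ hS hSδ using h1
  -- the closure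
  have h2 : ∀ k : K, ∃ k', k < k' ∧ ∀ (F₀ : Finset (Nd K)) (n : ℕ) (s : Fin n → Nd K),
      (∀ x ∈ F₀, x.1 ≤ k) → (∀ i, (s i).1 ≤ k) → δ F₀ n s < k' := by
    intro k
    have hc : Countable {x : Nd K // x.1 ≤ k} := (countable_low hI k).to_subtype
    let g : Finset {x : Nd K // x.1 ≤ k} × (Σ n : ℕ, (Fin n → {x : Nd K // x.1 ≤ k})) → K :=
      fun p => δ (p.1.map (Function.Embedding.subtype _)) p.2.1 (fun i => (p.2.2 i).1)
    obtain ⟨k', hk'⟩ := exists_ub' hT hF (S := insert k (range g))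
      ((countable_range g).insert k)
    refine ⟨k', hk' _ (mem_insert _ _), fun F₀ n s hF₀ hs => hk' _ (mem_insert_of_mem _ ?_)⟩
    refine ⟨(F₀.subtype fun x : Nd K => x.1 ≤ k, ⟨n, fun i => ⟨s i, hs i⟩⟩), ?_⟩
    have h3 : (F₀.subtype fun x : Nd K => x.1 ≤ k).map
        (Function.Embedding.subtype _) = F₀ := by
      rw [Finset.subtype_map, Finset.filter_eq_self]
      exact fun x hx => hF₀ x hx
    simp only [g]
    rw [h3]
  choose g hg hg' using h2
  obtain ⟨k0⟩ := nonempty_of_free hF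
  obtain ⟨κ, hκ0⟩ : ∃ κ : ℕ → K, ∀ j, κ (j + 1) = g (κ j) :=
    ⟨fun j => Nat.rec (motive := fun _ => K) k0 (fun _ k => g k) j, fun _ => rfl⟩
  have hκ : StrictMono κ := strictMono_nat_of_lt_succ fun j => by
    rw [hκ0]
    exact hg _
  have hκ' : ∀ j (F₀ : Finset (Nd K)) (n : ℕ) (s : Fin n → Nd K),
      (∀ x ∈ F₀, x.1 ≤ κ j) → (∀ i, (s i).1 ≤ κ j) → δ F₀ n s < κ (j + 1) := fun j => by
    rw [hκ0]
    exact hg' _
  -- the countable set
  refine ⟨⋃ j : ℕ, ⋃ p : Finset {x : Nd K // x.1 ≤ κ j} ×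
    (Σ n : ℕ, (Fin n → {x : Nd K // x.1 ≤ κ j})),
      S (p.1.map (Function.Embedding.subtype _)) p.2.1 (fun i => (p.2.2 i).1), ?_, ?_⟩
  · refine countable_iUnion fun j => ?_
    have hc : Countable {x : Nd K // x.1 ≤ κ j} := (countable_low hI (κ j)).to_subtype
    exact countable_iUnion fun p => hS _ _ _
  intro F
  let Low : Nd K → Prop := fun x => ∃ j : ℕ, x.1 ≤ κ j
  let F₀ : Finset (Nd K) := F.filter Low
  let F₁ : Finset (Nd K) := F.filter fun x => ¬ Low x
  have hF₁ : ∀ x ∈ F₁, ∀ j, κ j < x.1 := by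
    intro x hx j
    have h3 : ¬ ∃ j, x.1 ≤ κ j := by
      exact (Finset.mem_filter.1 hx).2
    push Not at h3
    exact h3 j
  obtain ⟨j0, hj0⟩ : ∃ j0, ∀ x ∈ F₀, x.1 ≤ κ j0 := by
    have h3 : ∀ x ∈ F₀, ∃ j, x.1 ≤ κ j := fun x hx => by
      exact (Finset.mem_filter.1 hx).2
    choose! e he using h3
    exact ⟨F₀.sup e, fun x hx => (he x hx).trans (hκ.monotone (Finset.le_sup hx))⟩
  let N : ℕ → ℕ := fun j => (F₁.image fun x => pr lt x (κ j)).card
  have hNle : ∀ j, N j ≤ F₁.card := fun j => Finset.card_image_le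
  have himg : ∀ j, (F₁.image fun x => pr lt x (κ (j + 1))).image (fun z => pr lt z (κ j)) =
      F₁.image fun x => pr lt x (κ j) := by
    intro j
    rw [Finset.image_image]
    refine Finset.image_congr fun x hx => ?_
    exact pr_pr hT (hκ (Nat.lt_succ_self j)) (hF₁ x hx (j + 1))
  have hNmono : Monotone N := monotone_nat_of_le_succ fun j => by
    show (F₁.image fun x => pr lt x (κ j)).card ≤ (F₁.image fun x => pr lt x (κ (j + 1))).card
    rw [← himg j]
    exact Finset.card_image_le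
  obtain ⟨j, hj, hNj⟩ : ∃ j, j0 ≤ j ∧ N (j + 1) = N j := by
    by_contra hcon
    push Not at hcon
    have h3 : ∀ m, m ≤ N (j0 + m) := by
      intro m
      induction m with
      | zero => exact Nat.zero_le _
      | succ m ih =>
        have h4 := hcon (j0 + m) (Nat.le_add_right _ _)
        have h5 := hNmono (Nat.le_succ (j0 + m))
        have h6 : N (j0 + m) < N (j0 + m + 1) := lt_of_le_of_ne h5 (Ne.symm h4)
        have h7 : N (j0 + (m + 1)) = N (j0 + m + 1) := rfl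
        omega
    have h4 := h3 (F₁.card + 1)
    have h5 := hNle (j0 + (F₁.card + 1))
    omega
  have hinj : Set.InjOn (fun z => pr lt z (κ j)) (F₁.image fun x => pr lt x (κ (j + 1)) : Set _) := by
    have h3 : ((F₁.image fun x => pr lt x (κ (j + 1))).image (fun z => pr lt z (κ j))).card =
        (F₁.image fun x => pr lt x (κ (j + 1))).card := by
      rw [himg j]
      exact hNj.symm
    have h4 := Finset.card_image_iff.1 h3
    exact h4
  let I := F₁.image fun x => pr lt x (κ j)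
  let e := I.equivFin.symm
  let s : Fin I.card → Nd K := fun i => (e i).1
  have hsI : ∀ i, s i ∈ I := fun i => (e i).2
  have hlev : ∀ z ∈ I, z.1 = κ j := by
    intro z hz
    obtain ⟨x, hx, rfl⟩ := Finset.mem_image.1 hz
    exact (pr_spec hT (hF₁ x hx j)).1
  have hsinj : Function.Injective s := Subtype.val_injective.comp e.injective
  have hx : ∀ i, ∃ x ∈ F₁, pr lt x (κ j) = s i := fun i => Finset.mem_image.1 (hsI i)
  choose w hw hw' using hx
  let t : Fin I.card → Nd K := fun i => pr lt (w i) (κ (j + 1))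
  have hst : Ab lt s t := by
    intro i
    have h3 := pr_pr hT (hκ (Nat.lt_succ_self j)) (hF₁ _ (hw i) (j + 1))
    have h4 := (pr_spec hT (hF₁ _ (hw i) (j + 1)))
    have h5 : κ j < (t i).1 := by
      show κ j < (pr lt (w i) (κ (j + 1))).1
      rw [h4.1]
      exact hκ (Nat.lt_succ_self j)
    have h6 := (pr_spec hT h5).2
    have h7 : pr lt (t i) (κ j) = s i := h3.trans (hw' i)
    rw [h7] at h6
    exact Or.inr h6
  have hslev : ∀ i, (s i).1 ≤ κ j := fun i => (hlev _ (hsI i)).le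
  have hF₀lev : ∀ x ∈ F₀, x.1 ≤ κ j := fun x hx => (hj0 x hx).trans (hκ.monotone hj)
  obtain ⟨c, hc, hc1, hc2⟩ := hSδ F₀ I.card s
    ⟨hsinj, fun i i' => (hlev _ (hsI i)).trans (hlev _ (hsI i')).symm⟩ t hst (by
      intro i
      have h4 := (pr_spec hT (hF₁ _ (hw i) (j + 1))).1
      have h5 : (t i).1 = κ (j + 1) := h4
      rw [h5]
      exact (hκ' j F₀ I.card s hF₀lev hslev).le)
  refine ⟨c, ?_, fun x hx => ?_⟩
  · refine mem_iUnion.2 ⟨j, mem_iUnion.2
      ⟨(F₀.subtype fun x : Nd K => x.1 ≤ κ j, ⟨I.card, fun i => ⟨s i, hslev i⟩⟩), ?_⟩⟩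
    have h3 : (F₀.subtype fun x : Nd K => x.1 ≤ κ j).map
        (Function.Embedding.subtype _) = F₀ := by
      rw [Finset.subtype_map, Finset.filter_eq_self]
      exact fun x hx => hF₀lev x hx
    show c ∈ S ((F₀.subtype fun x : Nd K => x.1 ≤ κ j).map (Function.Embedding.subtype _)) I.card s
    rw [h3]
    exact hc
  · rcases em (∃ j, x.1 ≤ κ j) with hlow | hlow
    · exact hc1 x (Finset.mem_filter.2 ⟨hx, hlow⟩)
    · have hxF₁ : x ∈ F₁ := Finset.mem_filter.2 ⟨hx, hlow⟩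
      have h3 : pr lt x (κ j) ∈ I := Finset.mem_image_of_mem _ hxF₁
      let i := I.equivFin ⟨_, h3⟩
      have h4 : s i = pr lt x (κ j) := by
        show (I.equivFin.symm (I.equivFin ⟨_, h3⟩)).1 = _
        rw [Equiv.symm_apply_apply]
      have h5 : pr lt x (κ (j + 1)) = t i := by
        refine hinj ?_ ?_ ?_
        · exact Finset.mem_coe.2 (Finset.mem_image_of_mem _ hxF₁)
        · exact Finset.mem_coe.2 (Finset.mem_image_of_mem _ (hw i))
        · show pr lt (pr lt x (κ (j + 1))) (κ j) = pr lt (pr lt (w i) (κ (j + 1))) (κ j)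
          rw [pr_pr hT (hκ (Nat.lt_succ_self j)) (hF₁ x hxF₁ _),
            pr_pr hT (hκ (Nat.lt_succ_self j)) (hF₁ _ (hw i) _), hw' i, h4]
      refine hc2 i x ?_
      rw [← h5]
      exact Or.inr (pr_spec hT (hF₁ x hxF₁ (j + 1))).2

end Pool.Agent.V11242.FS
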