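import Mathlib
import Pool.Agent.V11242.FS.Catch

/-!
# The topology of a tree
-/

set_option autoImplicit false
set_option linter.unusedSectionVars false

namespace Pool.Agent.V11242.FS

open Set Cardinal Pool.Agent.V11242.QC

variable {K : Type} [LinearOrder K]

/-- `z` is an immediate successor of `x` -/
def Imm (lt : Nd K → Nd K → Prop) (x z : Nd K) : Prop := lt x z ∧ ∀ w, lt x w → ¬ lt w z

/-- The set of the nodes, with the topology such that the sets which consist of `x` and of all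
nodes above almost all immediate successors of `x` form a base at `x`. -/
def Sp (_lt : Nd K → Nd K → Prop) : Type := Nd K

instance (lt : Nd K → Nd K → Prop) : TopologicalSpace (Sp lt) where
  IsOpen U := ∀ x : Nd K, x ∈ (U : Set (Nd K)) → ∃ n : ℕ, ∀ z : Nd K, Imm lt x z → n ≤ z.2 →
    ∀ y : Nd K, Le lt z y → y ∈ (U : Set (Nd K))
  isOpen_univ := fun _ _ => ⟨0, fun _ _ _ _ _ => trivial⟩
  isOpen_inter := by
    intro U V hU hV x hx
    obtain ⟨n, hn⟩ := hU x hx.1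
    obtain ⟨m, hm⟩ := hV x hx.2
    exact ⟨max n m, fun z hz hz' y hy => ⟨hn z hz ((le_max_left _ _).trans hz') y hy,
      hm z hz ((le_max_right _ _).trans hz') y hy⟩⟩
  isOpen_sUnion := by
    intro 𝒰 h𝒰 x hx
    obtain ⟨U, hU, hxU⟩ := hx
    obtain ⟨n, hn⟩ := h𝒰 U hU x hxU
    exact ⟨n, fun z hz hz' y hy => ⟨U, hU, hn z hz hz' y hy⟩⟩

variable {lt : Nd K → Nd K → Prop}

theorem isOpen_iff {U : Set (Sp lt)} : IsOpen U ↔ ∀ x : Nd K, x ∈ (U : Set (Nd K)) → ∃ n : ℕ,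
    ∀ z : Nd K, Imm lt x z → n ≤ z.2 → ∀ y : Nd K, Le lt z y → y ∈ (U : Set (Nd K)) := Iff.rfl

section Imm

variable [WellFoundedLT K] [NoMaxOrder K]

/-- the next level -/
noncomputable def nx (k : K) : K := wellFounded_lt.min {β : K | k < β} (exists_gt k)

theorem lt_nx (k : K) : k < nx k := wellFounded_lt.min_mem {β : K | k < β} (exists_gt k)

theorem nx_le {k β : K} (h : k < β) : nx k ≤ β := not_lt.1 (wellFounded_lt.not_lt_min _ h)

theorem imm_of_lev (hT : IsTree lt) {x z : Nd K} (h : lt x z) (h' : z.1 ≤ nx x.1) :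
    Imm lt x z :=
  ⟨h, fun _ h1 h2 => absurd (hT.lev _ _ h2) (not_lt.2 (h'.trans (nx_le (hT.lev _ _ h1))))⟩

theorem exists_imm (hT : IsTree lt) (x : Nd K) (n : ℕ) : ∃ z, Imm lt x z ∧ n ≤ z.2 := by
  obtain ⟨j, hj, hj'⟩ := hT.succ x (nx x.1) n (lt_nx _)
  exact ⟨(nx x.1, j), imm_of_lev hT hj' le_rfl, hj⟩

theorem exists_imm_le (hT : IsTree lt) {x y : Nd K} (h : lt x y) :
    ∃ z, Imm lt x z ∧ Le lt z y := by
  have h1 : nx x.1 ≤ y.1 := nx_le (hT.lev _ _ h)
  rcases h1.lt_or_eq with h1 | h1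
  · obtain ⟨z, hz, hz'⟩ := hT.pred y _ h1
    have h2 : Le lt x z := hT.lin (Or.inr h) (Or.inr hz') (by rw [hz]; exact (lt_nx _).le)
    rcases h2 with rfl | h2
    · exact absurd (lt_nx x.1) (by rw [← hz]; exact lt_irrefl _)
    · exact ⟨z, imm_of_lev hT h2 hz.le, Or.inr hz'⟩
  · exact ⟨y, imm_of_lev hT h h1.ge, Or.inl rfl⟩

theorem Imm.unique (hT : IsTree lt) {x y z z' : Nd K} (h : Imm lt x z) (h' : Imm lt x z')
    (hz : Le lt z y) (hz' : Le lt z' y) : z = z' := by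
  rcases hT.comp_of_le hz hz' with h1 | h1
  · rcases h1 with h1 | h1
    · exact h1
    · exact absurd h1 (h'.2 z h.1)
  · rcases h1 with h1 | h1
    · exact h1.symm
    · exact absurd h1 (h.2 z' h'.1)

/-- the cone above `t` -/
def cone (lt : Nd K → Nd K → Prop) (t : Nd K) : Set (Sp lt) := {y : Nd K | Le lt t y}

theorem isOpen_cone (hT : IsTree lt) (t : Nd K) : IsOpen (cone lt t) := by
  rw [isOpen_iff]
  intro x hx
  exact ⟨0, fun z hz _ y hy => (Le.trans hT hx (Or.inr hz.1)).trans hT hy⟩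

theorem isOpen_compl_cone (hT : IsTree lt) (t : Nd K) : IsOpen (cone lt t)ᶜ := by
  rw [isOpen_iff]
  intro x hx
  have hx' : ¬ Le lt t x := hx
  by_cases h : lt x t
  · obtain ⟨z0, h1, h2⟩ := exists_imm_le hT h
    refine ⟨z0.2 + 1, fun z hz hz' y hy hty => ?_⟩
    have h3 := hz.unique hT h1 hy (h2.trans hT hty)
    rw [h3] at hz'
    omega
  · refine ⟨0, fun z hz _ y hy hty => ?_⟩
    have h3 : Le lt x y := Le.trans hT (Or.inr hz.1) hy
    rcases hT.comp_of_le h3 hty with h4 | h4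
    · rcases h4 with rfl | h4
      · exact hx' (Or.inl rfl)
      · exact h h4
    · exact hx' h4

theorem isClosed_cone (hT : IsTree lt) (t : Nd K) : IsClosed (cone lt t) :=
  ⟨isOpen_compl_cone hT t⟩

/-- the basic neighbourhoods -/
def Bn (lt : Nd K → Nd K → Prop) (x : Nd K) (n : ℕ) : Set (Sp lt) :=
  {y : Nd K | y = x ∨ ∃ z, Imm lt x z ∧ n ≤ z.2 ∧ Le lt z y}

theorem isOpen_Bn (hT : IsTree lt) (x : Nd K) (n : ℕ) : IsOpen (Bn lt x n) := by
  rw [isOpen_iff]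
  rintro y (rfl | ⟨z, hz, hz', hy⟩)
  · exact ⟨n, fun z hz hz' w hw => Or.inr ⟨z, hz, hz', hw⟩⟩
  · exact ⟨0, fun z1 hz1 _ w hw => Or.inr ⟨z, hz, hz', (hy.trans hT (Or.inr hz1.1)).trans hT hw⟩⟩

theorem mem_Bn (x : Nd K) (n : ℕ) : x ∈ (Bn lt x n : Set (Nd K)) := Or.inl rfl

theorem Bn_sub_cone (hT : IsTree lt) (x : Nd K) (n : ℕ) : Bn lt x n ⊆ cone lt x := by
  rintro y (rfl | ⟨z, hz, hz', hy⟩)
  · exact Or.inl rfl
  · exact Le.trans hT (Or.inr hz.1) hy

theorem isClosed_Bn (hT : IsTree lt) (x : Nd K) (n : ℕ) : IsClosed (Bn lt x n) := by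
  refine ⟨?_⟩
  rw [isOpen_iff]
  intro y hy
  have hy' : y ∉ (Bn lt x n : Set (Nd K)) := hy
  by_cases h : Le lt x y
  · rcases h with rfl | h
    · exact absurd (mem_Bn _ _) hy'
    · obtain ⟨z0, h1, h2⟩ := exists_imm_le hT h
      refine ⟨0, fun z hz _ w hw hmem => hy' ?_⟩
      have h3 : Le lt z0 w := (h2.trans hT (Or.inr hz.1)).trans hT hw
      rcases hmem with rfl | ⟨z1, hz1, hz1', hw1⟩
      · have h4 := h3.lev hT
        exact absurd (hT.lev _ _ h1.1) (not_lt.2 h4)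
      · have h4 := hz1.unique hT h1 hw1 h3
        rw [h4] at hz1'
        exact Or.inr ⟨z0, h1, hz1', h2⟩
  · obtain ⟨n', hn'⟩ := isOpen_iff.1 (isOpen_compl_cone hT x) y h
    exact ⟨n', fun z hz hz' w hw hmem => hn' z hz hz' w hw (Bn_sub_cone hT x n hmem)⟩

theorem exists_Bn {U : Set (Sp lt)} (hU : IsOpen U) {x : Nd K} (hx : x ∈ (U : Set (Nd K))) :
    ∃ n, Bn lt x n ⊆ U := by
  obtain ⟨n, hn⟩ := isOpen_iff.1 hU x hx
  refine ⟨n, ?_⟩
  rintro y (rfl | ⟨z, hz, hz', hy⟩)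
  · exact hx
  · exact hn z hz hz' y hy

/-- every nonempty open set contains a cone above a node above a given element -/
theorem exists_cone (hT : IsTree lt) {U : Set (Sp lt)} (hU : IsOpen U) {x : Nd K}
    (hx : x ∈ (U : Set (Nd K))) : ∃ z, lt x z ∧ cone lt z ⊆ U := by
  obtain ⟨n, hn⟩ := isOpen_iff.1 hU x hx
  obtain ⟨z, hz, hz'⟩ := exists_imm hT x n
  exact ⟨z, hz.1, fun y hy => hn z hz hz' y hy⟩

theorem t2 (hT : IsTree lt) : T2Space (Sp lt) := by
  refine ⟨fun x y hxy => ?_⟩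
  have key : ∀ x y : Nd K, lt x y → ∃ U V : Set (Sp lt), IsOpen U ∧ IsOpen V ∧
      x ∈ (U : Set (Nd K)) ∧ y ∈ (V : Set (Nd K)) ∧ Disjoint U V := by
    intro x y h
    obtain ⟨z0, h1, h2⟩ := exists_imm_le hT h
    refine ⟨Bn lt x (z0.2 + 1), cone lt y, isOpen_Bn hT _ _, isOpen_cone hT _, mem_Bn _ _,
      Or.inl rfl, ?_⟩
    rw [Set.disjoint_left]
    rintro w (rfl | ⟨z, hz, hz', hw⟩) hyw
    · exact absurd (hT.lev _ _ h) (not_lt.2 (Le.lev hT hyw))
    · have h3 := hz.unique hT h1 hw (h2.trans hT hyw)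
      rw [h3] at hz'
      omega
  by_cases h : Comp lt x y
  · rcases h with (h | h) | (h | h)
    · exact absurd h hxy
    · exact key x y h
    · exact absurd h.symm hxy
    · obtain ⟨U, V, h1, h2, h3, h4, h5⟩ := key y x h
      exact ⟨V, U, h2, h1, h4, h3, h5.symm⟩
  · refine ⟨cone lt x, cone lt y, isOpen_cone hT _, isOpen_cone hT _, Or.inl rfl, Or.inl rfl, ?_⟩
    rw [Set.disjoint_left]
    intro w h1 h2
    exact h (hT.comp_of_le h1 h2)

theorem exists_level (hI : ∀ k : K, (Iic k).Countable) (hT : IsTree lt) (hF : Free lt)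
    (D : Set (Nd K)) (hD : ∀ t, ∃ u ∈ D, Le lt t u) : ∃ δ : K, ∀ t : Nd K, δ ≤ t.1 →
      ∃ u ∈ D, Le lt u t := by
  obtain ⟨k0⟩ := nonempty_of_free hF
  have h1 : ∀ i : ℕ, ∃ δ : K, ∀ t : Nd K, Le lt (k0, i) t → δ ≤ t.1 → ∃ u ∈ D, Le lt u t := by
    intro i
    obtain ⟨A, δ, -, hAD, h2⟩ := product_catch hI hT hF (n := 1) (s := fun _ => (k0, i))
      ⟨fun _ _ _ => Subsingleton.elim _ _, fun _ _ => rfl⟩ {u | u 0 ∈ D} (fun t _ => by
        obtain ⟨u, hu, hu'⟩ := hD (t 0)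
        refine ⟨fun _ => u, hu, fun j => ?_⟩
        rw [Subsingleton.elim j 0]
        exact hu')
    refine ⟨δ, fun t ht htδ => ?_⟩
    obtain ⟨u, hu, hu'⟩ := h2 (fun _ => t) (fun _ => ht) (fun _ => htδ)
    exact ⟨u 0, hAD hu, hu' 0⟩
  choose δ hδ using h1
  obtain ⟨δ', hδ'⟩ := exists_ub' hT hF (S := insert k0 (range δ)) ((countable_range δ).insert k0)
  refine ⟨δ', fun t ht => ?_⟩
  have h2 : k0 < t.1 := (hδ' k0 (mem_insert _ _)).trans_le ht
  obtain ⟨s, hs, hs'⟩ := hT.pred t k0 h2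
  obtain ⟨k, i⟩ := s
  have hs : k = k0 := hs
  subst hs
  exact hδ i t (Or.inr hs') ((hδ' _ (mem_insert_of_mem _ ⟨i, rfl⟩)).le.trans ht)

theorem countable_of_nowhereDense (hI : ∀ k : K, (Iic k).Countable) (hT : IsTree lt)
    (hF : Free lt) {N : Set (Sp lt)} (hN : IsNowhereDense N) : N.Countable := by
  obtain ⟨δ, hδ⟩ := exists_level hI hT hF {t : Nd K | Disjoint (cone lt t) N} (by
    intro t
    have h1 : ¬ cone lt t ⊆ closure N := by
      intro h
      have h2 : cone lt t ⊆ interior (closure N) := interior_maximal h (isOpen_cone hT t)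
      rw [hN] at h2
      exact h2 (show Le lt t t from Or.inl rfl)
    obtain ⟨y, hy, hy'⟩ := not_subset.1 h1
    obtain ⟨z, hz, hz'⟩ := exists_cone hT ((isOpen_cone hT t).inter isClosed_closure.isOpen_compl)
      (x := y) ⟨hy, hy'⟩
    refine ⟨z, ?_, Le.trans hT hy (Or.inr hz)⟩
    rw [mem_ofPred_eq, Set.disjoint_left]
    exact fun w hw hwN => (hz' hw).2 (subset_closure hwN))
  refine Set.Countable.mono ?_ (countable_low hI δ)
  intro x hx
  show x.1 ≤ δ
  by_contra hcon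
  obtain ⟨u, hu, hux⟩ := hδ x (not_le.1 hcon).le
  exact Set.disjoint_left.1 hu hux hx

theorem uncountable (hT : IsTree lt) (hF : Free lt) : ¬ (univ : Set (Sp lt)).Countable := by
  intro h
  have h1 : (univ : Set K).Countable := by
    have h2 : ((fun x : Nd K => x.1) '' (univ : Set (Nd K))).Countable := h.image _
    refine h2.mono fun k _ => ?_
    exact ⟨((k, 0) : Nd K), mem_univ _, rfl⟩
  obtain ⟨k, hk⟩ := exists_ub' hT hF h1
  exact lt_irrefl k (hk k (mem_univ _))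

theorem isLusin (hI : ∀ k : K, (Iic k).Countable) (hT : IsTree lt) (hF : Free lt) :
    IsLusin (Sp lt) := by
  refine ⟨t2 hT, fun N hN => countable_of_nowhereDense hI hT hF hN, ?_, uncountable hT hF⟩
  convert countable_empty
  rw [eq_empty_iff_forall_notMem]
  intro x hx
  obtain ⟨z, hz, hz'⟩ := exists_cone hT hx (x := x) rfl
  have h1 : z = x := hz' (show Le lt z z from Or.inl rfl)
  rw [h1] at hz
  exact lt_irrefl _ (hT.lev _ _ hz)

theorem isSemiregular (hT : IsTree lt) : IsSemiregular (Sp lt) := by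
  intro x U hU hx
  obtain ⟨n, hn⟩ := exists_Bn hU hx
  refine ⟨Bn lt x n, ?_, mem_Bn _ _, hn⟩
  rw [(isClosed_Bn hT x n).closure_eq, (isOpen_Bn hT x n).interior_eq]

theorem isOpenWhyburn (hT : IsTree lt) : IsOpenWhyburn (Sp lt) := by
  classical
  rintro A hA x ⟨hx, hxA⟩
  have h1 : ∀ z : Nd K, (∃ y, Le lt z y ∧ y ∈ (A : Set (Nd K))) →
      ∃ t, Le lt z t ∧ cone lt t ⊆ A := by
    rintro z ⟨y, hy, hyA⟩
    obtain ⟨t, ht, ht'⟩ := exists_cone hT hA hyA
    exact ⟨t, hy.trans hT (Or.inr ht), ht'⟩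
  choose! t ht ht' using h1
  let B : Set (Sp lt) := ⋃ z : {z : Nd K // Imm lt x z ∧ ∃ y, Le lt z y ∧ y ∈ (A : Set (Nd K))},
    cone lt (t z.1)
  have hBA : B ⊆ A := iUnion_subset fun z => ht' z.1 z.2.2
  have hBx : B ⊆ cone lt x := by
    refine iUnion_subset fun z y hy => ?_
    exact (Le.trans hT (Or.inr z.2.1.1) (ht z.1 z.2.2)).trans hT hy
  refine ⟨B, hBA, isOpen_iUnion fun z => isOpen_cone hT _, ?_⟩
  ext y
  rw [mem_singleton_iff]
  constructor
  · rintro ⟨hy, hyA⟩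
    by_contra hne
    by_cases h : Le lt x y
    · rcases h with h | h
      · exact hne h.symm
      · obtain ⟨z0, h1, h2⟩ := exists_imm_le hT h
        have h3 : y ∈ closure (B ∩ cone lt z0) :=
          closure_inter_open_of_mem hT hy h2
        have h4 : B ∩ cone lt z0 ⊆ A ∩ cone lt (t z0) := by
          rintro w ⟨hw, hw'⟩
          obtain ⟨z, hz⟩ := mem_iUnion.1 hw
          have h5 : z.1 = z0 := z.2.1.unique hT h1 ((ht z.1 z.2.2).trans hT hz) hw'
          rw [h5] at hz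
          exact ⟨hBA hw, hz⟩
        have h5 : y ∈ cone lt (t z0) := by
          have := closure_mono (h4.trans inter_subset_right) h3
          rwa [(isClosed_cone hT _).closure_eq] at this
        have h6 : ∃ w, Le lt z0 w ∧ w ∈ (A : Set (Nd K)) := by
          have h7 : (B ∩ cone lt z0).Nonempty := by
            rw [← closure_nonempty_iff]
            exact ⟨y, h3⟩
          obtain ⟨w, hw, hw'⟩ := h7
          exact ⟨w, hw', hBA hw⟩
        exact hyA (ht' z0 h6 h5)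
    · have h1 := (isClosed_cone hT x).closure_eq ▸ closure_mono hBx hy
      exact h h1
  · rintro rfl
    refine ⟨?_, hxA⟩
    rw [mem_closure_iff]
    intro U hU hyU
    obtain ⟨n, hn⟩ := exists_Bn hU hyU
    obtain ⟨w, hw, hwA⟩ := mem_closure_iff.1 hx _ (isOpen_Bn hT y n) (mem_Bn _ _)
    rcases hw with rfl | ⟨z, hz, hz', hw⟩
    · exact absurd hwA hxA
    · have h1 : ∃ y, Le lt z y ∧ y ∈ (A : Set (Nd K)) := ⟨w, hw, hwA⟩
      refine ⟨t z, hn (Or.inr ⟨z, hz, hz', ht z h1⟩), ?_⟩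
      exact mem_iUnion.2 ⟨⟨z, hz, h1⟩, show Le lt (t z) (t z) from Or.inl rfl⟩
where
  closure_inter_open_of_mem {z0 : Nd K} {B : Set (Sp lt)} (hT : IsTree lt) {y : Sp lt}
      (hy : y ∈ closure B) (h : y ∈ cone lt z0) : y ∈ closure (B ∩ cone lt z0) := by
    rw [mem_closure_iff] at hy ⊢
    intro U hU hyU
    obtain ⟨w, ⟨hw1, hw2⟩, hw3⟩ := hy _ (hU.inter (isOpen_cone hT z0)) ⟨hyU, h⟩
    exact ⟨w, hw1, hw3, hw2⟩

end Imm

end Pool.Agent.V11242.FS
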