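import Mathlib
import Pool.Agent.V11242.FS.Space
import Pool.Agent.V11242.QC.Base

/-!
# The tree space is a `γ`-space, and its space of quasicontinuous functions is Fréchet–Urysohn
-/

set_option autoImplicit false
set_option linter.unusedSectionVars false

namespace Pool.Agent.V11242.FS

open Set Cardinal Pool.Agent.V11242.QC

variable {K : Type} [LinearOrder K] {lt : Nd K → Nd K → Prop} [WellFoundedLT K] [NoMaxOrder K]

theorem decide_level (hI : ∀ k : K, (Iic k).Countable) (hT : IsTree lt) (hF : Free lt)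
    (U : ℕ → Set (Sp lt)) (hU : ∀ n, IsOpen (U n)) : ∃ δ : K, ∀ t : Nd K, δ ≤ t.1 → ∀ n,
      cone lt t ⊆ U n ∨ Disjoint (cone lt t) (U n) := by
  have h1 : ∀ n, ∃ δ : K, ∀ t : Nd K, δ ≤ t.1 →
      cone lt t ⊆ U n ∨ Disjoint (cone lt t) (U n) := by
    intro n
    obtain ⟨δ, hδ⟩ := exists_level hI hT hF
      {t : Nd K | cone lt t ⊆ U n ∨ Disjoint (cone lt t) (U n)} (by
        intro t
        by_cases h : Disjoint (cone lt t) (U n)
        · exact ⟨t, Or.inr h, Or.inl rfl⟩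
        · obtain ⟨y, hy, hy'⟩ := Set.not_disjoint_iff.1 h
          obtain ⟨z, hz, hz'⟩ := exists_cone hT (hU n) hy'
          exact ⟨z, Or.inl hz', Le.trans hT hy (Or.inr hz)⟩)
    refine ⟨δ, fun t ht => ?_⟩
    obtain ⟨u, hu, hut⟩ := hδ t ht
    have h2 : cone lt t ⊆ cone lt u := fun y hy => hut.trans hT hy
    rcases hu with hu | hu
    · exact Or.inl (h2.trans hu)
    · exact Or.inr (hu.mono_left h2)
  choose δ hδ using h1
  obtain ⟨k, hk⟩ := exists_ub hT hF δ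
  exact ⟨k, fun t ht n => hδ n t ((hk n).le.trans ht)⟩

theorem enum_low (hI : ∀ k : K, (Iic k).Countable) (δ : K) :
    ∃ y : ℕ → Nd K, ∀ x : Nd K, x.1 ≤ δ → ∃ n, y n = x := by
  obtain ⟨y, hy⟩ := (countable_low hI δ).exists_eq_range ⟨(δ, 0), le_refl δ⟩
  refine ⟨y, fun x hx => ?_⟩
  have h1 : x ∈ {x : Nd K | x.1 ≤ δ} := hx
  rw [hy] at h1
  exact h1

theorem isGamma (hI : ∀ k : K, (Iic k).Countable) (hT : IsTree lt) (hF : Free lt) :
    IsGammaSpace (Sp lt) := by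
  classical
  intro 𝒰 h𝒰 huniv hcov
  obtain ⟨S, hS, hSF⟩ := catch_finite hI hT hF (σ := 𝒰) (fun c x => x ∈ (c.1 : Set (Nd K))) (by
    intro F₀ n t
    obtain ⟨c, hc, hc'⟩ := hcov (F₀ ∪ Finset.univ.image t)
    have h1 : ∀ i, ∃ z, lt (t i) z ∧ cone lt z ⊆ c := fun i => exists_cone hT (h𝒰 c hc)
      (hc' _ (Finset.mem_union_right _ (Finset.mem_image_of_mem _ (Finset.mem_univ i))))
    choose u hu hu' using h1
    exact ⟨u, fun i => Or.inr (hu i), ⟨c, hc⟩, fun x hx => hc' _ (Finset.mem_union_left _ hx),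
      fun i y hy => hu' i hy⟩)
  -- avoiding finitely many members
  have hmiss : ∀ c : 𝒰, ∃ x : Nd K, x ∉ (c.1 : Set (Nd K)) := by
    intro c
    by_contra hcon
    push Not at hcon
    apply huniv
    have h1 : c.1 = Set.univ := eq_univ_of_forall hcon
    rw [← h1]
    exact c.2
  choose ms hms using hmiss
  have hav : ∀ (G : Finset 𝒰) (F : Finset (Nd K)), ∃ c ∈ S, c ∉ G ∧
      ∀ x ∈ F, x ∈ (c.1 : Set (Nd K)) := by
    intro G F
    obtain ⟨c, hc, hc'⟩ := hSF (F ∪ G.image ms)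
    exact ⟨c, hc, fun h => hms c (hc' _ (Finset.mem_union_right _ (Finset.mem_image_of_mem _ h))),
      fun x hx => hc' _ (Finset.mem_union_left _ hx)⟩
  have hne : S.Nonempty := by
    obtain ⟨c, hc, -⟩ := hSF ∅
    exact ⟨c, hc⟩
  obtain ⟨e, he⟩ := hS.exists_eq_range hne
  obtain ⟨δ, hδ⟩ := decide_level hI hT hF (fun n => (e n).1) (fun n => h𝒰 _ (e n).2)
  obtain ⟨y, hy⟩ := enum_low hI δ
  -- the sequence
  have hstep : ∀ (G : Finset 𝒰) (n : ℕ), ∃ c ∈ S, c ∉ G ∧ ∀ k ≤ n, y k ∈ (c.1 : Set (Nd K)) := by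
    intro G n
    obtain ⟨c, hc, hc1, hc2⟩ := hav G ((Finset.range (n + 1)).image y)
    exact ⟨c, hc, hc1, fun k hk => hc2 _ (Finset.mem_image_of_mem _ (Finset.mem_range.2
      (Nat.lt_succ_of_le hk)))⟩
  choose nxt hn1 hn2 hn3 using hstep
  obtain ⟨G, hG0, hG⟩ : ∃ G : ℕ → Finset 𝒰, G 0 = ∅ ∧ ∀ n, G (n + 1) = insert (nxt (G n) n) (G n) :=
    ⟨fun n => Nat.rec (motive := fun _ => Finset 𝒰) ∅ (fun n G => insert (nxt G n) G) n, rfl,
      fun _ => rfl⟩
  have hGm : Monotone G := monotone_nat_of_le_succ fun n => by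
    rw [hG]
    exact Finset.subset_insert _ _
  let V : ℕ → 𝒰 := fun n => nxt (G n) n
  have hVinj : Function.Injective V := by
    have h1 : ∀ m n, m < n → V m ≠ V n := by
      intro m n hmn h
      apply hn2 (G n) n
      show V n ∈ G n
      rw [← h]
      have h2 : V m ∈ G (m + 1) := by
        rw [hG]
        exact Finset.mem_insert_self _ _
      exact hGm hmn h2
    intro m n h
    rcases lt_trichotomy m n with h' | h' | h'
    · exact absurd h (h1 m n h')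
    · exact h'
    · exact absurd h.symm (h1 n m h')
  have hV : ∀ x : Nd K, ∃ m, ∀ n, m ≤ n → x ∈ ((V n).1 : Set (Nd K)) := by
    have h1 : ∀ x : Nd K, x.1 ≤ δ → ∃ m, ∀ n, m ≤ n → x ∈ ((V n).1 : Set (Nd K)) := by
      intro x hx
      obtain ⟨m, rfl⟩ := hy x hx
      exact ⟨m, fun n hn => hn3 (G n) n m hn⟩
    intro x
    by_cases hx : x.1 ≤ δ
    · exact h1 x hx
    · obtain ⟨h2, h3⟩ := pr_spec hT (not_le.1 hx)
      obtain ⟨m, hm⟩ := h1 _ h2.le
      refine ⟨m, fun n hn => ?_⟩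
      have h4 : V n ∈ S := hn1 _ _
      rw [he] at h4
      obtain ⟨k, hk⟩ := h4
      rcases hδ (pr lt x δ) h2.ge k with h5 | h5
      · rw [hk] at h5
        exact h5 (show Le lt (pr lt x δ) x from Or.inr h3)
      · rw [hk] at h5
        exact absurd (hm n hn) (Set.disjoint_left.1 h5 (show Le lt (pr lt x δ) (pr lt x δ) from
          Or.inl rfl))
  refine ⟨range fun n => (V n).1, ?_, ?_, ?_⟩
  · rintro _ ⟨n, rfl⟩
    exact (V n).2
  · exact Set.infinite_range_of_injective (Subtype.val_injective.comp hVinj)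
  · intro x
    obtain ⟨m, hm⟩ := hV x
    refine ((Set.finite_lt_nat m).image fun n => (V n).1).subset ?_
    rintro _ ⟨⟨n, rfl⟩, hn⟩
    refine ⟨n, ?_, rfl⟩
    by_contra h
    exact hn (hm n (not_lt.1 h))

theorem const_level (hI : ∀ k : K, (Iic k).Countable) (hT : IsTree lt) (hF : Free lt)
    (g : ℕ → Sp lt → ℝ) (hg : ∀ n, QuasiCont (g n)) : ∃ δ : K, ∀ t : Nd K, δ ≤ t.1 → ∀ n,
      ∀ y : Nd K, Le lt t y → g n y = g n t := by
  have h1 : ∀ W : ℝ → Set ℝ, (∀ c, IsOpen (W c)) → ∃ δ : K, ∀ t : Nd K, δ ≤ t.1 → ∀ (n : ℕ) (c : ℚ),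
      cone lt t ⊆ interior {x | g n x ∈ W c} ∨ Disjoint (cone lt t) (interior {x | g n x ∈ W c}) := by
    intro W hW
    obtain ⟨e, he⟩ := exists_surjective_nat (ℕ × ℚ)
    obtain ⟨δ, hδ⟩ := decide_level hI hT hF
      (fun k => interior {x | g (e k).1 x ∈ W (e k).2}) (fun k => isOpen_interior)
    refine ⟨δ, fun t ht n c => ?_⟩
    obtain ⟨k, hk⟩ := he (n, c)
    have h2 := hδ t ht k
    rw [hk] at h2
    exact h2
  obtain ⟨δ₁, hδ₁⟩ := h1 (fun c => Iio c) (fun c => isOpen_Iio)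
  obtain ⟨δ₂, hδ₂⟩ := h1 (fun c => Ioi c) (fun c => isOpen_Ioi)
  have key : ∀ (n : ℕ) (V : Set ℝ) (t y : Nd K), IsOpen V → (cone lt t ⊆ interior {x | g n x ∈ V} ∨
      Disjoint (cone lt t) (interior {x | g n x ∈ V})) → Le lt t y → g n y ∈ V → g n t ∈ V := by
    intro n V t y hV h2 hty hy
    rcases h2 with h2 | h2
    · exact (interior_subset (h2 (show Le lt t t from Or.inl rfl)) : _)
    · exfalso
      obtain ⟨W, hW, hne, hWt, hWV⟩ := hg n y _ (isOpen_cone hT t) hty V hV hy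
      obtain ⟨w, hw⟩ := hne
      exact Set.disjoint_left.1 h2 (hWt hw) (interior_maximal (fun z hz => hWV z hz) hW hw)
  refine ⟨max δ₁ δ₂, fun t ht n y hy => ?_⟩
  rcases lt_trichotomy (g n y) (g n t) with h | h | h
  · obtain ⟨c, hc, hc'⟩ := exists_rat_btwn h
    have h2 := key n (Iio (c : ℝ)) t y isOpen_Iio (hδ₁ t ((le_max_left _ _).trans ht) n c) hy hc
    exact absurd hc' (not_lt.2 (le_of_lt h2))
  · exact h
  · obtain ⟨c, hc, hc'⟩ := exists_rat_btwn h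
    have h2 := key n (Ioi (c : ℝ)) t y isOpen_Ioi (hδ₂ t ((le_max_right _ _).trans ht) n c) hy hc'
    exact absurd hc (not_lt.2 (le_of_lt h2))

theorem isFU (hI : ∀ k : K, (Iic k).Countable) (hT : IsTree lt) (hF : Free lt) :
    IsFU (Qp (Sp lt)) := by
  classical
  intro f A hf
  obtain ⟨δf, hδf⟩ := const_level hI hT hF (fun _ => f.1) (fun _ => f.2)
  -- countable tightness
  have h1 : ∀ m : ℕ, ∃ S : Set A, S.Countable ∧ ∀ F : Finset (Nd K), ∃ g ∈ S, ∀ x ∈ F,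
      |g.1.1 x - f.1 x| < 1 / ((m : ℝ) + 1) := by
    intro m
    have hm : (0 : ℝ) < 1 / ((m : ℝ) + 1) / 2 := by positivity
    refine catch_finite hI hT hF (σ := A) (fun g x => |g.1.1 x - f.1 x| < 1 / ((m : ℝ) + 1)) ?_
    intro F₀ n t
    have h2 : ∀ i, ∃ t', Le lt (t i) t' ∧ δf ≤ t'.1 := fun i => exists_succ' hT (t i) δf
    choose t' ht' ht'' using h2
    obtain ⟨F₁, hF₁, hF₁'⟩ : ∃ F₁ : Finset (Nd K), (∀ x ∈ F₀, x ∈ F₁) ∧ ∀ i, t' i ∈ F₁ :=
      ⟨F₀ ∪ Finset.univ.image t', fun x hx => Finset.mem_union_left _ hx,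
        fun i => Finset.mem_union_right _ (Finset.mem_image_of_mem _ (Finset.mem_univ i))⟩
    obtain ⟨g, hgA, hg⟩ := exists_of_mem_closure hf (F₁ : Finset (Sp lt)) hm
    have h3 : ∀ i, ∃ u, lt (t' i) u ∧ ∀ y, Le lt u y →
        |g.1 y - g.1 (t' i)| < 1 / ((m : ℝ) + 1) / 2 := by
      intro i
      obtain ⟨W, hW, ⟨w, hw⟩, hWt, hWV⟩ := g.2 (t' i) (cone lt (t' i)) (isOpen_cone hT _)
        (Or.inl rfl : Le lt (t' i) (t' i)) (Metric.ball (g.1 (t' i)) (1 / ((m : ℝ) + 1) / 2))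
        Metric.isOpen_ball (Metric.mem_ball_self hm)
      obtain ⟨z, hz, hz'⟩ := exists_cone hT hW hw
      have h4 : Le lt (t' i) w := hWt hw
      refine ⟨z, ?_, fun y hy => ?_⟩
      · rcases h4 with h4 | h4
        · rw [h4]
          exact hz
        · exact hT.trans _ _ _ h4 hz
      · have h5 := hWV y (hz' hy)
        rwa [Metric.mem_ball, Real.dist_eq] at h5
    choose u hu hu' using h3
    refine ⟨u, fun i => (ht' i).trans hT (Or.inr (hu i)), ⟨g, hgA⟩, fun x hx => ?_,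
      fun i y hy => ?_⟩
    · refine (hg x (hF₁ x hx)).trans ?_
      exact half_lt_self (by positivity)
    · have h4 := hu' i y hy
      have h5 := hg (t' i) (hF₁' i)
      have h6 : f.1 y = f.1 (t' i) := hδf (t' i) (ht'' i) 0 y (Le.trans hT (Or.inr (hu i)) hy)
      show |g.1 y - f.1 y| < 1 / ((m : ℝ) + 1)
      rw [h6]
      calc |g.1 y - f.1 (t' i)| = |(g.1 y - g.1 (t' i)) + (g.1 (t' i) - f.1 (t' i))| := by ring_nf
        _ ≤ |g.1 y - g.1 (t' i)| + |g.1 (t' i) - f.1 (t' i)| := abs_add_le _ _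
        _ < 1 / ((m : ℝ) + 1) / 2 + 1 / ((m : ℝ) + 1) / 2 := add_lt_add h4 h5
        _ = 1 / ((m : ℝ) + 1) := by ring
  choose S hS hSF using h1
  have hSc : (⋃ m, S m).Countable := countable_iUnion hS
  have hSne : (⋃ m, S m).Nonempty := by
    obtain ⟨g, hg, -⟩ := hSF 0 ∅
    exact ⟨g, mem_iUnion.2 ⟨0, hg⟩⟩
  obtain ⟨e, he⟩ := hSc.exists_eq_range hSne
  obtain ⟨δ, hδ⟩ := const_level hI hT hF (fun n => (e n).1.1) (fun n => (e n).1.2)
  obtain ⟨y, hy⟩ := enum_low hI (max δ δf)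
  choose g hg hg' using fun n : ℕ => hSF n ((Finset.range (n + 1)).image y)
  refine ⟨fun n => (g n).1, fun n => (g n).2, tendsto_of fun x => ?_⟩
  have h2 : ∀ x : Nd K, x.1 ≤ max δ δf → ∃ m, ∀ n, m ≤ n →
      |(g n).1.1 x - f.1 x| < 1 / ((n : ℝ) + 1) := by
    intro x hx
    obtain ⟨m, rfl⟩ := hy x hx
    exact ⟨m, fun n hn => hg' n _ (Finset.mem_image_of_mem _ (Finset.mem_range.2
      (Nat.lt_succ_of_le hn)))⟩
  by_cases hx : (show Nd K from x).1 ≤ max δ δf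
  · exact h2 x hx
  · obtain ⟨h3, h4⟩ := pr_spec hT (not_le.1 hx)
    obtain ⟨m, hm⟩ := h2 _ h3.le
    refine ⟨m, fun n hn => ?_⟩
    have h5 : f.1 x = f.1 (pr lt x (max δ δf)) :=
      hδf _ ((le_max_right _ _).trans h3.ge) 0 x (Or.inr h4)
    have h6 : g n ∈ ⋃ m, S m := mem_iUnion.2 ⟨n, hg n⟩
    rw [he] at h6
    obtain ⟨k, hk⟩ := h6
    have h7 : (e k).1.1 x = (e k).1.1 (pr lt x (max δ δf)) :=
      hδ _ ((le_max_left _ _).trans h3.ge) k x (Or.inr h4)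
    rw [hk] at h7
    rw [h5, h7]
    exact hm n hn

/-- Main theorem: a free Suslin tree gives a space with all required properties. -/
theorem main_space (hI : ∀ k : K, (Iic k).Countable) (h : Phi K) :
    ∃ (X : Type) (_ : TopologicalSpace X), IsLusin X ∧ IsGammaSpace X ∧ IsSemiregular X ∧
      IsOpenWhyburn X ∧ IsFU (Qp X) ∧ (∀ x : X, ∀ U : Set X, IsOpen U → x ∈ U →
        ∃ V : Set X, IsClopen V ∧ x ∈ V ∧ V ⊆ U) ∧
      (∀ x : X, ∃ V : ℕ → Set X, (∀ n, IsOpen (V n) ∧ x ∈ V n) ∧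
        ∀ U : Set X, IsOpen U → x ∈ U → ∃ n, V n ⊆ U) := by
  obtain ⟨lt, hT, hF⟩ := h
  refine ⟨Sp lt, inferInstance, isLusin hI hT hF, isGamma hI hT hF, isSemiregular hT,
    isOpenWhyburn hT, isFU hI hT hF, ?_, ?_⟩
  · intro x U hU hx
    obtain ⟨n, hn⟩ := exists_Bn hU hx
    exact ⟨Bn lt x n, ⟨isClosed_Bn hT x n, isOpen_Bn hT x n⟩, mem_Bn _ _, hn⟩
  · exact fun x => ⟨fun n => Bn lt x n, fun n => ⟨isOpen_Bn hT x n, mem_Bn _ _⟩,
      fun U hU hx => exists_Bn hU hx⟩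

end Pool.Agent.V11242.FS
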